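import Pool.Agent.Q256.FX.Abs
import Pool.Agent.H951R3.PB.GDefs

/-!
# Project FX (helper256): statements of the jobs for number fields of degree at most `D`
-/

set_option autoImplicit false

open MvPolynomial Filter Topology

namespace Pool.Agent.Q256.FX

open Pool.Agent.H951R3.PB (wd ev rs cf)

/-- ABSD: the nonstandard theorem for functions with values in number fields `ℚ(θ_ω)` of degree
`r`. -/
def S_absD : Prop := ∀ (ι : Type) (𝒰 : Ultrafilter ℕ) (X : ℕ → ℕ),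
  Tendsto X (𝒰 : Filter ℕ) atTop → (∀ N, 2 ≤ X N) →
  ∀ (Λ : Type) [Fintype Λ] (r : ℕ) (θ : ℕ × ι → ℂ) (Z : Λ → ℕ × ι → ℂ) (T : Set (ℕ × ι))
    (A0 a0 : ℕ), 1 ≤ a0 → 1 ≤ r →
    (∀ N, {s | (N, s) ∈ T}.Finite) →
    (∀ ω ∈ T, ∀ v : Fin r → ℚ, ∑ l, (v l : ℂ) * θ ω ^ (l : ℕ) = 0 → v = 0) →
    (∀ ω ∈ T, ∃ v : Fin r → ℚ, θ ω ^ r = ∑ l, (v l : ℂ) * θ ω ^ (l : ℕ) ∧
      ∀ l, hq (v l) ≤ X ω.1 ^ A0) →
    (∀ ω ∈ T, ∀ j, ∃ v : Fin r → ℚ, Z j ω = ∑ l, (v l : ℂ) * θ ω ^ (l : ℕ) ∧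
      ∀ l, hq (v l) ≤ X ω.1 ^ A0) →
    ¬ Small 𝒰 X a0 T →
    ∃ w : UF 𝒰 ι, T ∈ w.W ∧
      (∀ B : Set (ℕ × ι), (∀ N, {s | (N, s) ∈ B}.Subsingleton) → B ∉ w.W) ∧
      ∃ (L : Type) (_ : Field L) (_ : Algebra (kf 𝒰 X) L) (ψ : L →ₐ[kf 𝒰 X] RR w ℂ) (n : ℕ)
        (y : Fin n → L) (z : Λ → L) (t : L),
        (⊤ : IntermediateField (kf 𝒰 X) L).FG ∧ AlgebraicIndependent (kf 𝒰 X) y ∧
        (∀ c : L, IsAlgebraic (IntermediateField.adjoin (kf 𝒰 X) (Set.range y)) c) ∧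
        (∀ j, ψ (z j) = gm w (Z j)) ∧ ψ t = gm w θ ∧
        ∀ A : ℕ, ∃ b : ℕ, ∀ (g : ℕ × ι → ℂ) (c : L), ψ c = gm w g →
          (∀ᶠ ω in (w.W : Filter (ℕ × ι)), ∃ v : Fin r → ℚ,
            g ω = ∑ l, (v l : ℂ) * θ ω ^ (l : ℕ) ∧ ∀ l, hq (v l) ≤ X ω.1 ^ A) →
          ∃ v : Fin r → L, c = ∑ l, v l * t ^ (l : ℕ) ∧
            ∀ l, ∃ F : MvPolynomial (Fin (n + 1)) (kf 𝒰 X), F ≠ 0 ∧ F.totalDegree ≤ b ∧
              aeval (cn (v l) y) F = 0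

/-- COORD: the coordinates of an element of a number field with respect to the powers of a
generator have bounded height. -/
def S_coord : Prop := ∀ D : ℕ, ∃ C : ℕ, ∀ (K : Type) [Field K] [NumberField K],
  Module.finrank ℚ K ≤ D → ∀ θ : K, IntermediateField.adjoin ℚ {θ} = ⊤ → ∀ H : ℕ, 2 ≤ H →
  Height.mulHeight₁ θ ≤ H →
  (∀ v : Fin (Module.finrank ℚ K) → ℚ, ∑ l, (v l : K) * θ ^ (l : ℕ) = 0 → v = 0) ∧
  ∀ c : K, Height.mulHeight₁ c ≤ H → ∃ v : Fin (Module.finrank ℚ K) → ℚ,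
    c = ∑ l, (v l : K) * θ ^ (l : ℕ) ∧ ∀ l, hq (v l) ≤ H ^ C

/-- GEN: a generator of bounded height. -/
def S_gen : Prop := ∀ D M : ℕ, ∃ C : ℕ, ∀ (K : Type) [Field K] [NumberField K],
  Module.finrank ℚ K ≤ D → ∀ c : Fin M → K, IntermediateField.adjoin ℚ (Set.range c) = ⊤ →
  ∀ H : ℕ, 2 ≤ H → (∀ j, Height.mulHeight₁ (c j) ≤ H) →
    ∃ θ : K, IntermediateField.adjoin ℚ {θ} = ⊤ ∧ Height.mulHeight₁ θ ≤ (H : ℝ) ^ C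

/-- HTD: `S_ht` over number fields of bounded degree. -/
def S_htD : Prop := ∀ d D : ℕ, 2 ≤ d → ∃ A : ℕ, ∀ (K : Type) [Field K] [NumberField K],
  Module.finrank ℚ K ≤ D → ∀ X : ℕ, 2 ≤ X →
  ∀ f : Fin 2 → MvPolynomial (Fin 2) K, (∀ i, (f i).IsHomogeneous d) →
    Height.mulHeight (cf d f) ≤ X → rs f d ≠ 0 →
  ∀ v : Fin 2 → K, v ≠ 0 → ∀ h : ℝ,
    Tendsto (fun j : ℕ => Real.log (Height.mulHeight ((ev f)^[j] v)) / (d : ℝ) ^ j) atTop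
      (𝓝 h) → Real.log (Height.mulHeight v) ≤ h + A * Real.log X

/-- CNTD: `S_cnt` over fields of characteristic zero. -/
def S_cntD : Prop := ∀ d N : ℕ, 2 ≤ d → ∃ B : ℕ, ∀ (K : Type) [Field K] [CharZero K]
  (f : Fin 2 → MvPolynomial (Fin 2) K),
  (∀ i, (f i).IsHomogeneous d) → rs f d ≠ 0 → ∀ S : Finset (Fin 2 → K), (∀ v ∈ S, v ≠ 0) →
    (∀ v ∈ S, ∀ w ∈ S, v ≠ w → wd v w ≠ 0) →
    (∀ v ∈ S, ∃ i j : ℕ, i < j ∧ j ≤ N ∧ wd ((ev f)^[i] v) ((ev f)^[j] v) = 0) → S.card ≤ B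

end Pool.Agent.Q256.FX
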