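import Pool.Agent.Q256.FX.Few
import Pool.Agent.Q256.FX.StmD

/-!
# Project FX (helper256): the generic map and its orbit over number fields
-/

set_option autoImplicit false

open MvPolynomial Filter Topology

namespace Pool.Agent.Q256.FX

open Pool.Agent.H951R3.PB (wd ev rs dh cf)

/-- pairs of binary forms over `ℂ` -/
abbrev FC : Type := Fin 2 → MvPolynomial (Fin 2) ℂ

/-- conjugacy of pairs of forms over `ℂ` -/
def CJC (f g : FC) : Prop :=
  ∃ (A : Matrix (Fin 2) (Fin 2) ℂ) (c : ℂ), A.det ≠ 0 ∧ c ≠ 0 ∧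
    ∀ v, ev f (A.mulVec v) = c • A.mulVec (ev g v)

theorem CJC.symm' {f g : FC} (h : CJC f g) : CJC g f := by
  obtain ⟨A, c, hA, hc, h⟩ := h
  have hu : IsUnit A.det := hA.isUnit
  refine ⟨A⁻¹, c⁻¹, ?_, inv_ne_zero hc, fun v => ?_⟩
  · exact (Matrix.isUnit_nonsing_inv_det A hu).ne_zero
  · have h1 := h (A⁻¹.mulVec v)
    rw [Matrix.mulVec_mulVec, Matrix.mul_nonsing_inv A hu, Matrix.one_mulVec] at h1
    rw [h1, Matrix.mulVec_smul, smul_smul, inv_mul_cancel₀ hc, one_smul, Matrix.mulVec_mulVec,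
      Matrix.nonsing_inv_mul A hu, Matrix.one_mulVec]

theorem CJC.trans' {f g l : FC} (h : CJC f g) (h' : CJC g l) : CJC f l := by
  obtain ⟨A, c, hA, hc, h⟩ := h
  obtain ⟨B, e, hB, he, h'⟩ := h'
  refine ⟨A * B, c * e, ?_, mul_ne_zero hc he, fun v => ?_⟩
  · rw [Matrix.det_mul]
    exact mul_ne_zero hA hB
  · rw [← Matrix.mulVec_mulVec, h, h', Matrix.mulVec_smul, smul_smul, Matrix.mulVec_mulVec]

theorem CJC.refl' (f : FC) : CJC f f :=
  ⟨1, 1, by simp, one_ne_zero, fun v => by simp⟩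

/-- the coordinates -/
def zzC (d : ℕ) (u : ℕ × FC → Fin 2 → ℂ) : Lam d → ℕ × FC → ℂ
  | .inl (i, μ) => fun ω => (ω.2 i).coeff μ.1
  | .inr l => fun ω => u ω l

/-- the generic map over the ring of functions -/
noncomputable def fhatC (d : ℕ) : Fin 2 → MvPolynomial (Fin 2) (ℕ × FC → ℂ) := fun i =>
  ∑ μ : {μ // μ ∈ mons d}, monomial μ.1 (fun ω => (ω.2 i).coeff μ.1)

/-- the generic point over the ring of functions -/
def uhatC (u : ℕ × FC → Fin 2 → ℂ) : Fin 2 → (ℕ × FC → ℂ) := fun l ω => u ω l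

theorem at_fhatC {d : ℕ} (ω : ℕ × FC) (h : ∀ i, (ω.2 i).IsHomogeneous d) :
    mp (at' ω) (fhatC d) = ω.2 := by
  funext i
  unfold mp fhatC
  rw [map_sum]
  conv_rhs => rw [hom_eq_sum (h i)]
  rw [← Finset.sum_coe_sort (mons d)]
  refine Finset.sum_congr rfl fun μ _ => ?_
  rw [MvPolynomial.map_monomial]
  rfl

/-- the generic orbit -/
noncomputable def orbC (d : ℕ) (u : ℕ × FC → Fin 2 → ℂ) (j : ℕ) : Fin 2 → (ℕ × FC → ℂ) :=
  (evR (fhatC d))^[j] (uhatC u)

theorem at_orbC {d : ℕ} (u : ℕ × FC → Fin 2 → ℂ) (j : ℕ) (ω : ℕ × FC)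
    (h : ∀ i, (ω.2 i).IsHomogeneous d) :
    (fun l => orbC d u j l ω) = (ev ω.2)^[j] (u ω) := by
  have h1 := iter_map (at' ω : (ℕ × FC → ℂ) →+* ℂ) (fhatC d) (uhatC u) j
  rw [at_fhatC ω h, evR_eq] at h1
  have h2 : (at' ω : (ℕ × FC → ℂ) →+* ℂ) ∘ uhatC u = u ω := rfl
  rw [h2] at h1
  rw [h1]
  rfl

theorem at_rsC {d : ℕ} (ω : ℕ × FC) (h : ∀ i, (ω.2 i).IsHomogeneous d) :
    rsR (fhatC d) d ω = rs ω.2 d := by
  have h1 := rsR_map (at' ω : (ℕ × FC → ℂ) →+* ℂ) (fhatC d) d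
  rw [at_fhatC ω h, rsR_eq] at h1
  exact h1.symm

theorem at_wdC {d : ℕ} (u : ℕ × FC → Fin 2 → ℂ) (i j : ℕ) (ω : ℕ × FC)
    (h : ∀ i, (ω.2 i).IsHomogeneous d) :
    wdR (orbC d u i) (orbC d u j) ω = wd ((ev ω.2)^[i] (u ω)) ((ev ω.2)^[j] (u ω)) := by
  rw [← at_orbC u i ω h, ← at_orbC u j ω h]
  rfl

theorem charZero_germC {α : Type} (l : Filter α) [l.NeBot] : CharZero (Germ l ℂ) := by
  refine ⟨fun m n h => ?_⟩
  have h1 : ((fun _ => (m : ℂ)) : α → ℂ) =ᶠ[l] fun _ => (n : ℂ) := Germ.coe_eq.1 h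
  obtain ⟨x, hx⟩ := h1.exists
  have h2 : (m : ℂ) = n := hx
  exact_mod_cast h2

/-- the generic map is conjugate to a map with coefficients depending only on `N` -/
theorem conj_aeC {𝒰 : Ultrafilter ℕ} (w : UF 𝒰 FC) (d : ℕ) (K : Type) [Field K] [CharZero K]
    (ψ : K →+* RR w ℂ) (f : Fin 2 → MvPolynomial (Fin 2) K)
    (hf : mp ψ f = mp (gh w ℂ) (fhatC d))
    (A : Matrix (Fin 2) (Fin 2) K) (g : Fin 2 → MvPolynomial (Fin 2) K)
    (c : K) (hA : A.det ≠ 0) (hc : c ≠ 0)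
    (hg : ∀ i μ, ∃ b : ℕ → ℂ, ψ ((g i).coeff μ) = gm w (fun ω => b ω.1))
    (h : ∀ v : Fin 2 → K, ev f (A.mulVec v) = c • A.mulVec (ev g v)) :
    ∃ G : ℕ → Fin 2 → MvPolynomial (Fin 2) ℂ, ∀ᶠ ω in (w.W : Filter (ℕ × FC)),
      (∀ i, (ω.2 i).IsHomogeneous d) → CJC ω.2 (G ω.1) := by
  classical
  -- representatives of `A` and `c`
  have hrep : ∀ x : RR w ℂ, ∃ a : ℕ × FC → ℂ, gm w a = x := by
    intro x
    induction x using Germ.inductionOn with | _ a => exact ⟨a, rfl⟩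
  choose a ha using fun i j => hrep (ψ (A i j))
  obtain ⟨e, he⟩ := hrep (ψ c)
  choose b hb using hg
  let ghat : Fin 2 → MvPolynomial (Fin 2) (ℕ × FC → ℂ) := fun i =>
    ∑ μ ∈ (g i).support, monomial μ (fun ω => b i μ ω.1)
  let G : ℕ → Fin 2 → MvPolynomial (Fin 2) ℂ := fun N i =>
    ∑ μ ∈ (g i).support, monomial μ (b i μ N)
  have hghat : ∀ i, (ghat i).map (gh w ℂ) = (g i).map ψ := by
    intro i
    have h1 : (g i).map ψ = ∑ μ ∈ (g i).support, monomial μ (ψ ((g i).coeff μ)) := by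
      conv_lhs => rw [(g i).as_sum]
      rw [map_sum]
      refine Finset.sum_congr rfl fun μ _ => ?_
      rw [MvPolynomial.map_monomial]
    rw [h1]
    simp only [ghat]
    rw [map_sum]
    refine Finset.sum_congr rfl fun μ _ => ?_
    rw [MvPolynomial.map_monomial, hb, gh_apply]
  have hatG : ∀ (ω : ℕ × FC) i, (ghat i).map (at' ω) = G ω.1 i := by
    intro ω i
    simp only [ghat, G]
    rw [map_sum]
    refine Finset.sum_congr rfl fun μ _ => ?_
    rw [MvPolynomial.map_monomial]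
    rfl
  -- the polynomial identity over `K`
  have hpoly : ∀ i, bind₁ (lin fun l j => A l j) (f i) = C c * ∑ j, C (A i j) * g j := by
    intro i
    have : Infinite K := inferInstance
    apply MvPolynomial.funext
    intro v
    have h1 := congrFun (h v) i
    rw [eval_lin]
    rw [show eval ((Matrix.of fun l j => A l j).mulVec v) (f i) = ev f (A.mulVec v) i from rfl, h1]
    simp only [Matrix.mulVec, dotProduct, Pi.smul_apply, smul_eq_mul, map_mul, map_sum,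
      MvPolynomial.eval_C, ev]
  -- over the ring of functions
  let L : Fin 2 → MvPolynomial (Fin 2) (ℕ × FC → ℂ) := fun i =>
    bind₁ (lin a) (fhatC d i) - C e * ∑ j, C (a i j) * ghat j
  have hL : ∀ {S : Type} [CommRing S] (φ : (ℕ × FC → ℂ) →+* S) (i : Fin 2), (L i).map φ =
      bind₁ (lin fun l j => φ (a l j)) ((fhatC d i).map φ) -
        C (φ e) * ∑ j, C (φ (a i j)) * (ghat j).map φ := by
    intro S _ φ i
    simp only [L]
    rw [map_sub, MvPolynomial.map_bind₁, map_mul, map_sum, MvPolynomial.map_C]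
    simp only [map_mul, MvPolynomial.map_C, map_lin]
  have hL0 : ∀ i, (L i).map (gh w ℂ) = 0 := by
    intro i
    have h1 := congrArg (fun p => MvPolynomial.map ψ p) (hpoly i)
    rw [MvPolynomial.map_bind₁, map_mul, map_sum, MvPolynomial.map_C] at h1
    simp only [map_mul, MvPolynomial.map_C, map_lin] at h1
    rw [hL, sub_eq_zero]
    have e1 : (fhatC d i).map (gh w ℂ) = (f i).map ψ := (congrFun hf i).symm
    have e3 : gh w ℂ e = ψ c := he
    have e4 : ∀ l j, gh w ℂ (a l j) = ψ (A l j) := fun l j => ha l j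
    simp only [e1, hghat, e3, e4]
    exact h1
  have hae : ∀ᶠ ω in (w.W : Filter (ℕ × FC)), ∀ i, (L i).map (at' ω) = 0 := by
    rw [eventually_all]
    exact fun i => map_zero_ae w (L i) (hL0 i)
  have hdet : ∀ᶠ ω in (w.W : Filter (ℕ × FC)),
      (Matrix.of fun i j => a i j ω : Matrix (Fin 2) (Fin 2) ℂ).det ≠ 0 := by
    have h1 : gm w (fun ω => a 0 0 ω * a 1 1 ω - a 0 1 ω * a 1 0 ω) ≠ 0 := by
      have h2 : gm w (fun ω => a 0 0 ω * a 1 1 ω - a 0 1 ω * a 1 0 ω) = ψ A.det := by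
        rw [Matrix.det_fin_two, map_sub, map_mul, map_mul, ← ha, ← ha, ← ha, ← ha]
        rfl
      rw [h2]
      exact (map_ne_zero ψ).2 hA
    filter_upwards [gm_ne w h1] with ω hω
    rw [Matrix.det_fin_two]
    exact hω
  have hce : ∀ᶠ ω in (w.W : Filter (ℕ × FC)), e ω ≠ 0 := by
    apply gm_ne w
    rw [he]
    exact (map_ne_zero ψ).2 hc
  refine ⟨G, ?_⟩
  filter_upwards [hae, hdet, hce] with ω h1 h2 h3 h4
  refine ⟨Matrix.of fun i j => a i j ω, e ω, h2, h3, fun v => ?_⟩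
  funext i
  have h5 := h1 i
  rw [hL, sub_eq_zero] at h5
  have e1 : (fhatC d i).map (at' ω) = ω.2 i := congrFun (at_fhatC ω h4) i
  simp only [e1, hatG] at h5
  have h6 := congrArg (MvPolynomial.eval v) h5
  rw [eval_lin] at h6
  have e5 : (Matrix.of fun l j => at' ω (a l j) : Matrix (Fin 2) (Fin 2) ℂ) =
      Matrix.of fun i j => a i j ω := rfl
  rw [e5] at h6
  show MvPolynomial.eval _ (ω.2 i) = _
  rw [h6]
  simp only [Matrix.mulVec, dotProduct, Pi.smul_apply, smul_eq_mul, map_mul, map_sum,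
    MvPolynomial.eval_C, ev, Matrix.of_apply]
  rfl

end Pool.Agent.Q256.FX
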