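import Pool.Agent.Q256.FX.Nst
import Pool.Agent.H951R3.PB.Defs

/-!
# Project FX (helper256): statements of the jobs
-/

set_option autoImplicit false

open MvPolynomial Filter Topology

namespace Pool.Agent.Q256.FX

open Pool.Agent.H951R3.PB (wd ev rs)

/-- MAIN: the nonstandard determinant method. A set `T` of points `(N, s)` which is not small has a
generic point `w` such that every germ of polynomially bounded height in the field generated by the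
coordinates `Z` satisfies a relation of bounded degree with a transcendence basis; the bound depends
only on the exponent of the height. -/
def S_main : Prop := ∀ (ι : Type) (𝒰 : Ultrafilter ℕ) (X : ℕ → ℕ),
  Tendsto X (𝒰 : Filter ℕ) atTop → (∀ N, 2 ≤ X N) →
  ∀ (M : ℕ) (Z : Fin M → ℕ × ι → ℚ) (T : Set (ℕ × ι)) (A0 a0 : ℕ), 1 ≤ a0 →
    (∀ N, {s | (N, s) ∈ T}.Finite) → (∀ ω ∈ T, ∀ i, hq (Z i ω) ≤ X ω.1 ^ A0) →
    ¬ Small 𝒰 X a0 T →
    ∃ w : UF 𝒰 ι, T ∈ w.W ∧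
      (∀ B : Set (ℕ × ι), (∀ N, {s | (N, s) ∈ B}.Subsingleton) → B ∉ w.W) ∧
      ∃ (n : ℕ) (J : Fin n → Fin M),
        AlgebraicIndependent (kf 𝒰 X) (fun i => gm w (Z (J i))) ∧
        (∀ j, IsAlgebraic (IntermediateField.adjoin (kf 𝒰 X)
          (Set.range fun i => gm w (Z (J i)))) (gm w (Z j))) ∧
        ∀ A : ℕ, ∃ b : ℕ, ∀ g : ℕ × ι → ℚ,
          gm w g ∈ IntermediateField.adjoin (kf 𝒰 X) (Set.range fun j => gm w (Z j)) →
          (∀ᶠ ω in (w.W : Filter (ℕ × ι)), hq (g ω) ≤ X ω.1 ^ A) →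
          ∃ F : MvPolynomial (Fin (n + 1)) (kf 𝒰 X), F ≠ 0 ∧ F.totalDegree ≤ b ∧
            aeval (cn (gm w g) (fun i => gm w (Z (J i)))) F = 0

/-- ALG: a germ in `(N, s)` which is algebraic over the germs in `N` is a germ in `N`. -/
def S_alg : Prop := ∀ (ι : Type) (𝒰 : Ultrafilter ℕ) (X : ℕ → ℕ) (w : UF 𝒰 ι) (E : Type)
  [Field E] [CharZero E] (g : ℕ × ι → E), IsAlgebraic (kf 𝒰 X) (gm w g) →
    ∃ c : ℕ → E, gm w g = gm w (fun ω => c ω.1)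

/-- INTER: an element which is algebraic over all the fields generated by all but one of the
elements of a transcendence basis is algebraic. -/
def S_inter : Prop := ∀ (k K : Type) [Field k] [Field K] [Algebra k K] (n : ℕ) (y : Fin n → K),
  AlgebraicIndependent k y → (∀ c : K, IsAlgebraic (IntermediateField.adjoin k (Set.range y)) c) →
  ∀ c : K, (∀ i, IsAlgebraic (IntermediateField.adjoin k {z | ∃ j, j ≠ i ∧ z = y j}) c) →
    IsAlgebraic k c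

/-- CONV: a relation over `k` as a relation of `c` and `y i` over the field generated by the other
`y j`. -/
def S_conv : Prop := ∀ (k K : Type) [Field k] [Field K] [Algebra k K] (n b : ℕ) (y : Fin n → K),
  AlgebraicIndependent k y → ∀ (c : K) (F : MvPolynomial (Fin (n + 1)) k), F ≠ 0 →
    F.totalDegree ≤ b → aeval (cn c y) F = 0 → ∀ i,
      ∃ G : MvPolynomial (Fin 2) (IntermediateField.adjoin k {z | ∃ j, j ≠ i ∧ z = y j}),
        G ≠ 0 ∧ G.totalDegree ≤ b ∧ aeval ![c, y i] G = 0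

/-- the cross ratio of four vectors -/
noncomputable def cross {K : Type} [Field K] (e0 e1 e2 y : Fin 2 → K) : K :=
  (wd y e1 * wd e0 e2) / (wd e0 y * wd e2 e1)

/-- BAKER: an infinite orbit of bounded height over a function field of one variable has constant
cross ratios. -/
def S_baker : Prop := ∀ (k K : Type) [Field k] [CharZero k] [Field K] [Algebra k K],
  (⊤ : IntermediateField k K).FG → ∀ x : K, Transcendental k x →
  Algebra.IsAlgebraic (IntermediateField.adjoin k {x}) K →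
  ∀ d : ℕ, 2 ≤ d → ∀ f : Fin 2 → MvPolynomial (Fin 2) K, (∀ i, (f i).IsHomogeneous d) →
    rs f d ≠ 0 →
  ∀ P : ℕ → Fin 2 → K, (∀ j, ∃ c : K, c ≠ 0 ∧ ev f (P j) = c • P (j + 1)) →
    (∀ i j, i ≠ j → wd (P i) (P j) ≠ 0) →
  ∀ (m b : ℕ) (θ : Fin m → K),
    (∀ j, P j 1 ≠ 0 → ∃ w : Fin m → K, P j 0 / P j 1 = ∑ l, w l * θ l ∧
      ∀ l, ∃ G : MvPolynomial (Fin 2) k, G ≠ 0 ∧ G.totalDegree ≤ b ∧ aeval ![w l, x] G = 0) →
    ∀ i₀ i₁ i₂ i₃ : ℕ, i₀ ≠ i₁ → i₀ ≠ i₂ → i₀ ≠ i₃ → i₁ ≠ i₂ → i₁ ≠ i₃ → i₂ ≠ i₃ →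
      IsAlgebraic k (cross (P i₀) (P i₁) (P i₂) (P i₃))

/-- BAKERN: the same over function fields of any transcendence degree. -/
def S_bakern : Prop := ∀ (k K : Type) [Field k] [CharZero k] [Field K] [Algebra k K],
  (⊤ : IntermediateField k K).FG → ∀ (n : ℕ) (y : Fin n → K), AlgebraicIndependent k y →
  (∀ c : K, IsAlgebraic (IntermediateField.adjoin k (Set.range y)) c) →
  ∀ d : ℕ, 2 ≤ d → ∀ f : Fin 2 → MvPolynomial (Fin 2) K, (∀ i, (f i).IsHomogeneous d) →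
    rs f d ≠ 0 →
  ∀ P : ℕ → Fin 2 → K, (∀ j, ∃ c : K, c ≠ 0 ∧ ev f (P j) = c • P (j + 1)) →
    (∀ i j, i ≠ j → wd (P i) (P j) ≠ 0) →
  ∀ (m b : ℕ) (θ : Fin m → K),
    (∀ j, P j 1 ≠ 0 → ∃ w : Fin m → K, P j 0 / P j 1 = ∑ l, w l * θ l ∧
      ∀ l, ∃ F : MvPolynomial (Fin (n + 1)) k, F ≠ 0 ∧ F.totalDegree ≤ b ∧
        aeval (cn (w l) y) F = 0) →
    ∀ i₀ i₁ i₂ i₃ : ℕ, i₀ ≠ i₁ → i₀ ≠ i₂ → i₀ ≠ i₃ → i₁ ≠ i₂ → i₁ ≠ i₃ → i₂ ≠ i₃ →
      IsAlgebraic k (cross (P i₀) (P i₁) (P i₂) (P i₃))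

/-- CONJ: a map with an infinite orbit whose cross ratios lie in a subfield is conjugate to a map
over the subfield. -/
def S_conj : Prop := ∀ (K : Type) [Field K] [CharZero K] (E : Subfield K) (d : ℕ), 1 ≤ d →
  ∀ f : Fin 2 → MvPolynomial (Fin 2) K, (∀ i, (f i).IsHomogeneous d) → rs f d ≠ 0 →
  ∀ P : ℕ → Fin 2 → K, (∀ j, ∃ c : K, c ≠ 0 ∧ ev f (P j) = c • P (j + 1)) →
    (∀ i j, i ≠ j → wd (P i) (P j) ≠ 0) →
    (∀ j, 3 ≤ j → cross (P 0) (P 1) (P 2) (P j) ∈ E) →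
    ∃ (A : Matrix (Fin 2) (Fin 2) K) (g : Fin 2 → MvPolynomial (Fin 2) K) (c : K),
      A.det ≠ 0 ∧ c ≠ 0 ∧ (∀ i, (g i).IsHomogeneous d) ∧ (∀ i μ, (g i).coeff μ ∈ E) ∧
        ∀ v, ev f (A.mulVec v) = c • A.mulVec (ev g v)

/-- an integral pair of forms over `ℚ` -/
noncomputable def fq (F : Fin 2 → MvPolynomial (Fin 2) ℤ) : Fin 2 → MvPolynomial (Fin 2) ℚ :=
  fun i => (F i).map (Int.castRingHom ℚ)

/-- HT: the height of a point is at most the canonical height plus `A log X`. -/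
def S_ht : Prop := ∀ d : ℕ, 2 ≤ d → ∃ A : ℕ, ∀ X : ℕ, 2 ≤ X →
  ∀ F : Fin 2 → MvPolynomial (Fin 2) ℤ, (∀ i, (F i).IsHomogeneous d) →
    (∀ i μ, ((F i).coeff μ).natAbs ≤ X) → rs (fq F) d ≠ 0 →
  ∀ v : Fin 2 → ℚ, v ≠ 0 → ∀ h : ℝ,
    Tendsto (fun j : ℕ => Real.log (Height.mulHeight ((ev (fq F))^[j] v)) / (d : ℝ) ^ j) atTop
      (𝓝 h) → Real.log (Height.mulHeight v) ≤ h + A * Real.log X

/-- PRIM: primitive coordinates and the height over `ℚ`. -/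
def S_prim : Prop := ∀ v : Fin 2 → ℚ, v ≠ 0 → ∃ (u : Fin 2 → ℤ) (c : ℚ), c ≠ 0 ∧
  v = c • (fun i => (u i : ℚ)) ∧ IsCoprime (u 0) (u 1) ∧
  Height.mulHeight v = ((max (u 0).natAbs (u 1).natAbs : ℕ) : ℝ) ∧
  (v 1 ≠ 0 → hq (v 0 / v 1) = max (u 0).natAbs (u 1).natAbs)

/-- CNT: the number of points with a short orbit is bounded. -/
def S_cnt : Prop := ∀ d N : ℕ, 2 ≤ d → ∃ B : ℕ, ∀ f : Fin 2 → MvPolynomial (Fin 2) ℚ,
  (∀ i, (f i).IsHomogeneous d) → rs f d ≠ 0 → ∀ S : Finset (Fin 2 → ℚ), (∀ v ∈ S, v ≠ 0) →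
    (∀ v ∈ S, ∀ w ∈ S, v ≠ w → wd v w ≠ 0) →
    (∀ v ∈ S, ∃ i j : ℕ, i < j ∧ j ≤ N ∧ wd ((ev f)^[i] v) ((ev f)^[j] v) = 0) → S.card ≤ B

end Pool.Agent.Q256.FX
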