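import Pool.Agent.Q256.FX.StmD

/-!
# Job ABSD: the nonstandard theorem for functions with values in number fields (written by helper210;
# a copy of Q210/FX/Absd.lean in another namespace)
-/

set_option autoImplicit false

open MvPolynomial Filter Topology

namespace Pool.Agent.Q256.FX.AD

open Pool.Agent.Q256.FX

section ext

variable {k K0 R : Type} [Field k] [Field K0] [Field R] [Algebra k K0] [Algebra k R]

/-- a polynomial relation over the image of `K0` -/
theorem exists_coord [Algebra K0 R] (θ : R) (r : ℕ) (hr : 1 ≤ r) (a : Fin r → K0)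
    (hθ : θ ^ r = ∑ l, algebraMap K0 R (a l) * θ ^ (l : ℕ)) :
    IsIntegral K0 θ ∧ ∀ c ∈ Algebra.adjoin K0 {θ}, ∃ v : Fin r → K0,
      c = ∑ l, algebraMap K0 R (v l) * θ ^ (l : ℕ) := by
  set q : Polynomial K0 := Polynomial.X ^ r -
    ∑ l : Fin r, Polynomial.C (a l) * Polynomial.X ^ (l : ℕ) with hq
  have hdeg : (∑ l : Fin r, Polynomial.C (a l) * Polynomial.X ^ (l : ℕ) : Polynomial K0).degree <
      (Polynomial.X ^ r : Polynomial K0).degree := by
    rw [Polynomial.degree_X_pow]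
    exact Polynomial.degree_sum_fin_lt a
  have hmon : q.Monic := (Polynomial.monic_X_pow r).sub_of_left hdeg
  have hqd : q.degree = r := by
    rw [hq, Polynomial.degree_sub_eq_left_of_degree_lt hdeg, Polynomial.degree_X_pow]
  have hroot : Polynomial.aeval θ q = 0 := by
    rw [hq, map_sub, map_pow, Polynomial.aeval_X, map_sum, hθ, sub_eq_zero]
    refine Finset.sum_congr rfl fun l _ => ?_
    rw [map_mul, map_pow, Polynomial.aeval_X, Polynomial.aeval_C]
  refine ⟨⟨q, hmon, by rw [← Polynomial.aeval_def]; exact hroot⟩, fun c hc => ?_⟩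
  rw [Algebra.adjoin_singleton_eq_range_aeval] at hc
  obtain ⟨p, rfl⟩ := hc
  have h1 : Polynomial.aeval θ p = Polynomial.aeval θ (p %ₘ q) :=
    (Polynomial.aeval_modByMonic_eq_self_of_root hroot).symm
  have h2 : (p %ₘ q).natDegree < r := by
    by_cases h0 : p %ₘ q = 0
    · rw [h0, Polynomial.natDegree_zero]
      omega
    · rw [Polynomial.natDegree_lt_iff_degree_lt h0, ← hqd]
      exact Polynomial.degree_modByMonic_lt p hmon
  refine ⟨fun l => (p %ₘ q).coeff l, ?_⟩
  change Polynomial.aeval θ p = _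
  rw [h1, Polynomial.aeval_eq_sum_range' h2, Finset.sum_range]
  exact Finset.sum_congr rfl fun l _ => Algebra.smul_def _ _

theorem ext_field (φ : K0 →ₐ[k] R) (θ : R) (r : ℕ) (hr : 1 ≤ r) (a : Fin r → K0)
    (hθ : θ ^ r = ∑ l, φ (a l) * θ ^ (l : ℕ)) (n : ℕ) (y0 : Fin n → K0)
    (hFG : (⊤ : IntermediateField k K0).FG)
    (halg : ∀ c : K0, IsAlgebraic (IntermediateField.adjoin k (Set.range y0)) c) :
    ∃ (L : Type) (_ : Field L) (_ : Algebra k L) (ψ : L →ₐ[k] R) (i : K0 →ₐ[k] L) (t : L),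
      ψ t = θ ∧ (∀ a, ψ (i a) = φ a) ∧ (⊤ : IntermediateField k L).FG ∧
      (∀ c : L, IsAlgebraic (IntermediateField.adjoin k (Set.range (i ∘ y0))) c) ∧
      ∀ c : L, ∃ v : Fin r → K0, c = ∑ l, i (v l) * t ^ (l : ℕ) := by
  let _ : Algebra K0 R := φ.toRingHom.toAlgebra
  have hmap : ∀ a, algebraMap K0 R a = φ a := fun _ => rfl
  have : IsScalarTower k K0 R := IsScalarTower.of_algebraMap_eq fun a => by
    rw [hmap, φ.commutes]
  obtain ⟨hint, hcoord⟩ := exists_coord θ r hr a hθ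
  set L := IntermediateField.adjoin K0 {θ} with hL
  have hfin : FiniteDimensional K0 L := IntermediateField.adjoin.finiteDimensional hint
  let t : L := ⟨θ, IntermediateField.mem_adjoin_simple_self K0 θ⟩
  let ψ : L →ₐ[k] R := L.val.restrictScalars k
  let i : K0 →ₐ[k] L := IsScalarTower.toAlgHom k K0 L
  have hψi : ∀ a, ψ (i a) = φ a := fun _ => rfl
  refine ⟨L, inferInstance, inferInstance, ψ, i, t, rfl, hψi, ?_, ?_, ?_⟩
  · rw [IntermediateField.fg_top_iff] at hFG ⊢
    have h1 : Algebra.EssFiniteType K0 L := inferInstance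
    exact Algebra.EssFiniteType.comp k K0 L
  · intro c
    set F0 := IntermediateField.adjoin k (Set.range y0) with hF0
    set F1 := IntermediateField.adjoin k (Set.range (i ∘ y0)) with hF1
    have h0 : Algebra.IsAlgebraic F0 K0 := ⟨halg⟩
    have h1 : Algebra.IsAlgebraic K0 L := inferInstance
    have h2 : Algebra.IsAlgebraic F0 L := Algebra.IsAlgebraic.trans F0 K0 L
    obtain ⟨p, hp0, hp⟩ := h2.isAlgebraic c
    have hmem : ∀ x : F0, i x ∈ F1 := by
      intro x
      have h3 : F0.map i = F1 := by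
        rw [hF0, hF1, IntermediateField.adjoin_map, ← Set.range_comp]
      rw [← h3]
      exact ⟨x, x.2, rfl⟩
    let j : F0 →+* F1 :=
      { toFun := fun x => ⟨i x, hmem x⟩
        map_one' := Subtype.ext (map_one i)
        map_mul' := fun x y => Subtype.ext (map_mul i _ _)
        map_zero' := Subtype.ext (map_zero i)
        map_add' := fun x y => Subtype.ext (map_add i _ _) }
    refine ⟨p.map j, ?_, ?_⟩
    · rw [Ne, Polynomial.map_eq_zero]
      exact hp0
    · rw [Polynomial.aeval_def, Polynomial.eval₂_map]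
      rw [Polynomial.aeval_def] at hp
      exact hp
  · intro c
    have h1 : L.toSubalgebra = Algebra.adjoin K0 {θ} := by
      rw [hL, IntermediateField.adjoin_simple_toSubalgebra_of_isAlgebraic hint.isAlgebraic]
    have h2 : (c : R) ∈ Algebra.adjoin K0 {θ} := by
      rw [← h1]
      exact c.2
    obtain ⟨v, hv⟩ := hcoord _ h2
    refine ⟨v, ?_⟩
    have hinj : Function.Injective ψ := ψ.toRingHom.injective
    apply hinj
    rw [map_sum]
    refine Eq.trans hv (Finset.sum_congr rfl fun l _ => ?_)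
    rw [map_mul, map_pow, hψi]
    rfl

end ext

variable {𝒰 : Ultrafilter ℕ} {ι : Type}

/-- germs of rational functions as germs of complex functions -/
noncomputable def cst (w : UF 𝒰 ι) : RR w ℚ →+* RR w ℂ where
  toFun g := g.map (algebraMap ℚ ℂ)
  map_one' := by
    have h1 : ((1 : RR w ℚ)) = ((fun _ => (1 : ℚ)) : ℕ × ι → ℚ) := rfl
    rw [h1, Germ.map_coe]
    have h2 : ((fun _ : ℕ × ι => (1 : ℂ)) : Germ (w.W : Filter (ℕ × ι)) ℂ) = 1 := rfl
    rw [← h2]
    congr 1
    funext ω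
    simp
  map_mul' := by
    intro a b
    induction a using Germ.inductionOn with | _ a =>
    induction b using Germ.inductionOn with | _ b =>
    rw [← Germ.coe_mul, Germ.map_coe, Germ.map_coe, Germ.map_coe, ← Germ.coe_mul]
    congr 1
    funext ω
    simp
  map_zero' := by
    have h1 : ((0 : RR w ℚ)) = ((fun _ => (0 : ℚ)) : ℕ × ι → ℚ) := rfl
    rw [h1, Germ.map_coe]
    have h2 : ((fun _ : ℕ × ι => (0 : ℂ)) : Germ (w.W : Filter (ℕ × ι)) ℂ) = 0 := rfl
    rw [← h2]
    congr 1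
    funext ω
    simp
  map_add' := by
    intro a b
    induction a using Germ.inductionOn with | _ a =>
    induction b using Germ.inductionOn with | _ b =>
    rw [← Germ.coe_add, Germ.map_coe, Germ.map_coe, Germ.map_coe, ← Germ.coe_add]
    congr 1
    funext ω
    simp

theorem cst_gm (w : UF 𝒰 ι) (g : ℕ × ι → ℚ) :
    cst w (gm w g) = gm w (fun ω => ((g ω : ℚ) : ℂ)) := rfl

theorem cst_alg (w : UF 𝒰 ι) (X : ℕ → ℕ) (a : kf 𝒰 X) :
    cst w (algebraMap (kf 𝒰 X) (RR w ℚ) a) = algebraMap (kf 𝒰 X) (RR w ℂ) a := by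
  have h : ∀ g : Germ (𝒰 : Filter ℕ) ℚ, cst w (pull w ℚ g) = pull w ℂ g := by
    intro g
    induction g using Germ.inductionOn with | _ g =>
    rw [pull_coe, pull_coe]
    rfl
  exact h _

theorem gm_sum (w : UF 𝒰 ι) {r : ℕ} (v : Fin r → ℕ × ι → ℚ) (θ : ℕ × ι → ℂ) :
    gm w (fun ω => ∑ l, ((v l ω : ℚ) : ℂ) * θ ω ^ (l : ℕ)) =
      ∑ l, cst w (gm w (v l)) * gm w θ ^ (l : ℕ) := by
  have h1 : (fun ω => ∑ l, ((v l ω : ℚ) : ℂ) * θ ω ^ (l : ℕ)) =
      ∑ l, (fun ω => ((v l ω : ℚ) : ℂ)) * θ ^ (l : ℕ) := by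
    funext ω
    simp [Finset.sum_apply]
  have h2 : ∀ g : ℕ × ι → ℂ, gm w g = Germ.coeRingHom (w.W : Filter (ℕ × ι)) g := fun _ => rfl
  rw [h1, h2, map_sum]
  refine Finset.sum_congr rfl fun l _ => ?_
  rw [map_mul, map_pow, cst_gm, h2, h2]

theorem absD (h : S_abs) : S_absD := by
  intro ι 𝒰 X hX hX2 Λ _ r θ Z T A0 a0 ha0 hr hfin hli hθ hZ hns
  classical
  choose! cc hcc hcc' using hθ
  choose! zc hzc hzc' using hZ
  obtain ⟨w, hT, hsub, K0, _, _, ψ0, n, y0, z0, hFG, hind, halg, hz0, hstar⟩ :=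
    h ι 𝒰 X hX hX2 ((Λ × Fin r) ⊕ Fin r)
      (Sum.elim (fun p ω => zc ω p.1 p.2) (fun l ω => cc ω l)) T A0 a0 ha0 hfin
      (by
        rintro ω hω (p | l)
        · exact hzc' ω hω p.1 p.2
        · exact hcc' ω hω l) hns
  let φ : K0 →ₐ[kf 𝒰 X] RR w ℂ :=
    { toRingHom := (cst w).comp ψ0.toRingHom
      commutes' := fun a => by
        change cst w (ψ0 (algebraMap _ _ a)) = _
        rw [ψ0.commutes, cst_alg] }
  have hφ : ∀ a, φ a = cst w (ψ0 a) := fun _ => rfl
  have hθ' : gm w θ ^ r = ∑ l : Fin r, φ (z0 (Sum.inr l)) * gm w θ ^ (l : ℕ) := by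
    have h1 : gm w θ ^ r = gm w (fun ω => θ ω ^ r) := rfl
    have h2 : ∀ l : Fin r, φ (z0 (Sum.inr l)) = cst w (gm w (fun ω => cc ω l)) := by
      intro l
      rw [hφ, hz0]
      rfl
    simp only [h2]
    rw [← gm_sum w (fun l ω => cc ω l) θ, h1, gm_eq]
    filter_upwards [hT] with ω hω
    exact hcc ω hω
  obtain ⟨L, _, _, ψ, i, t, ht, hψi, hLFG, hLalg, hLc⟩ :=
    ext_field φ (gm w θ) r hr _ hθ' n y0 hFG halg
  refine ⟨w, hT, hsub, L, inferInstance, inferInstance, ψ, n, i ∘ y0,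
    fun j => ∑ l : Fin r, i (z0 (Sum.inl (j, l))) * t ^ (l : ℕ), t, hLFG,
    hind.map' i.injective, hLalg, ?_, ht, ?_⟩
  · intro j
    rw [map_sum]
    have h2 : ∀ l : Fin r, ψ (i (z0 (Sum.inl (j, l))) * t ^ (l : ℕ)) =
        cst w (gm w (fun ω => zc ω j l)) * gm w θ ^ (l : ℕ) := by
      intro l
      rw [map_mul, map_pow, hψi, hφ, hz0, ht]
      rfl
    simp only [h2]
    rw [← gm_sum w (fun l ω => zc ω j l) θ, gm_eq]
    filter_upwards [hT] with ω hω
    exact (hzc ω hω j).symm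
  · intro A
    obtain ⟨b, hb⟩ := hstar A
    refine ⟨b, fun g c hc hg => ?_⟩
    obtain ⟨v, hv⟩ := hLc c
    have hrep : ∀ l, ∃ v' : ℕ × ι → ℚ, ψ0 (v l) = gm w v' := by
      intro l
      have : ∀ x : RR w ℚ, ∃ v' : ℕ × ι → ℚ, x = gm w v' := by
        intro x
        induction x using Germ.inductionOn with | _ x => exact ⟨x, rfl⟩
      exact this _
    choose v' hv' using hrep
    have h1 : gm w g = gm w (fun ω => ∑ l, ((v' l ω : ℚ) : ℂ) * θ ω ^ (l : ℕ)) := by
      rw [← hc, hv, map_sum, gm_sum]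
      refine Finset.sum_congr rfl fun l _ => ?_
      rw [map_mul, map_pow, hψi, hφ, hv', ht]
    rw [gm_eq] at h1
    have h2 : ∀ᶠ ω in (w.W : Filter (ℕ × ι)), ∀ l, hq (v' l ω) ≤ X ω.1 ^ A := by
      filter_upwards [h1, hg, hT] with ω hω1 hω2 hω3
      obtain ⟨u, hu1, hu2⟩ := hω2
      have h3 := hli ω hω3 (fun l => v' l ω - u l) (by
        have : ∀ l : Fin r, (((v' l ω - u l : ℚ)) : ℂ) * θ ω ^ (l : ℕ) =
            ((v' l ω : ℚ) : ℂ) * θ ω ^ (l : ℕ) - ((u l : ℚ) : ℂ) * θ ω ^ (l : ℕ) := by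
          intro l
          push_cast
          ring
        simp only [this]
        rw [Finset.sum_sub_distrib, ← hω1, ← hu1, sub_self])
      intro l
      have h4 : v' l ω = u l := by
        have := congrFun h3 l
        simpa [sub_eq_zero] using this
      rw [h4]
      exact hu2 l
    refine ⟨fun l => i (v l), hv, fun l => ?_⟩
    obtain ⟨F, hF0, hFb, hF⟩ := hb (v' l) (v l) (hv' l) (by
      filter_upwards [h2] with ω hω
      exact hω l)
    refine ⟨F, hF0, hFb, ?_⟩
    have h5 : cn (i (v l)) (i ∘ y0) = fun m => i (cn (v l) y0 m) := by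
      funext m
      refine Fin.cases ?_ (fun m => ?_) m
      · rfl
      · rfl
    rw [h5, ← MvPolynomial.comp_aeval_apply, hF, map_zero]

end Pool.Agent.Q256.FX.AD
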