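import Pool.Agent.Q256.FX.FewD
import Pool.Agent.Helper259.HtExt

/-!
# Project FX (helper256): the data of an exceptional map over a number field
-/

set_option autoImplicit false

open MvPolynomial Filter Topology

namespace Pool.Agent.Q256.FX

open Pool.Agent.H951R3.PB (wd ev rs dh cf)

theorem ht_sub {K : Type} [Field K] [NumberField K] (E : IntermediateField ℚ K) (x : E) :
    Height.mulHeight₁ x ≤ Height.mulHeight₁ (x : K) := by
  rw [Height.mulHeight₁_eq_mulHeight, Height.mulHeight₁_eq_mulHeight]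
  have h := Pool.Agent.Helper259.HtExt.mulHeight_ext (K := E) (L := K) ![x, 1]
  have e : (fun i => algebraMap E K ((![x, 1] : Fin 2 → E) i)) = ![(x : K), 1] := by
    funext i
    fin_cases i <;> rfl
  rw [e] at h
  rw [h]
  refine le_self_pow₀ (Height.one_le_mulHeight _) ?_
  exact Module.finrank_pos.ne'

theorem ev_mem {K : Type} [Field K] [Algebra ℚ K] (E : IntermediateField ℚ K)
    (f : Fin 2 → MvPolynomial (Fin 2) K) (hf : ∀ i μ, (f i).coeff μ ∈ E) (x : Fin 2 → K)
    (hx : ∀ l, x l ∈ E) (j : ℕ) : ∀ l, (ev f)^[j] x l ∈ E := by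
  induction j with
  | zero => exact hx
  | succ j ih =>
    intro l
    rw [Function.iterate_succ_apply']
    show MvPolynomial.eval _ (f l) ∈ E
    rw [MvPolynomial.eval_eq]
    refine sum_mem fun μ _ => mul_mem (hf l μ) (prod_mem fun i _ => pow_mem (ih i) _)

theorem iter_scale {K : Type} [Field K] {d : ℕ} {f : Fin 2 → MvPolynomial (Fin 2) K}
    (hf : ∀ i, (f i).IsHomogeneous d) (c e0 : K) (hc : c ≠ 0) (he0 : e0 ≠ 0) (x : Fin 2 → K)
    (j : ℕ) : ∃ e : K, e ≠ 0 ∧ (ev (fun i => C c * f i))^[j] (e0 • x) = e • (ev f)^[j] x := by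
  induction j with
  | zero => exact ⟨e0, he0, rfl⟩
  | succ j ih =>
    obtain ⟨e, he, h⟩ := ih
    refine ⟨c * e ^ d, mul_ne_zero hc (pow_ne_zero _ he), ?_⟩
    rw [Function.iterate_succ_apply', Function.iterate_succ_apply', h]
    have h1 : ev (fun i => C c * f i) (e • (ev f)^[j] x) = c • ev f (e • (ev f)^[j] x) := by
      funext i
      simp [ev]
    rw [h1, Pool.Agent.TH450.PC.ev_smul hf, smul_smul]

theorem coeff_hom {K : Type} [Field K] {d : ℕ} {f : Fin 2 → MvPolynomial (Fin 2) K}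
    (hf : ∀ i, (f i).IsHomogeneous d) (i : Fin 2) (μ : Fin 2 →₀ ℕ) (h : (f i).coeff μ ≠ 0) :
    ∃ j : Fin (d + 1), (f i).coeff μ = cf d f (i, j) := by
  have h1 : μ.degree = d := by
    rw [Finsupp.degree_eq_weight_one]
    exact hf i h
  have h2 : μ 0 + μ 1 = d := by
    rw [← h1, Finsupp.degree_eq_sum]
    simp
  refine ⟨⟨μ 0, by omega⟩, ?_⟩
  simp only [cf]
  congr 1
  ext l
  fin_cases l <;> simp <;> omega

theorem exists_dt (hcoord : S_coord) (hgen : S_gen) (hht : S_htD) (d D : ℕ) (hd : 2 ≤ d) :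
    ∃ A : ℕ, ∀ (K : Type) [Field K] [NumberField K], Module.finrank ℚ K ≤ D →
      ∀ X : ℕ, 2 ≤ X → ∀ N : ℕ, 1 ≤ N →
      ∀ F : Fin 2 → MvPolynomial (Fin 2) K, (∀ i, (F i).IsHomogeneous d) →
      Height.mulHeight (cf d F) ≤ X → rs F d ≠ 0 → ∀ v : Fin 2 → K, v ≠ 0 →
      (∀ i j, i < j → j ≤ N → wd ((ev F)^[i] v) ((ev F)^[j] v) ≠ 0) →
      ∀ h : ℝ, h ≤ Real.log X / N →
      Tendsto (fun j : ℕ => Real.log (Height.mulHeight ((ev F)^[j] v)) / (d : ℝ) ^ j) atTop
        (𝓝 h) → ∀ σ : K →+* ℂ, ∃ c : K, c ≠ 0 ∧ ∃ r θ u,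
          Dt d D A N X (fun i => (C c * F i).map σ) r θ u := by
  classical
  obtain ⟨A1, hA1⟩ := hht d D hd
  set M : ℕ := Fintype.card ((Fin 2 × Fin (d + 1)) ⊕ Fin 2) with hM
  obtain ⟨Cg, hCg⟩ := hgen D M
  obtain ⟨Cc, hCc⟩ := hcoord D
  set A2 : ℕ := (A1 + 2) * (Cg * D + Cg + 1) with hA2
  refine ⟨A2 * Cc, ?_⟩
  intro K _ _ hK X hX N hN F hF hFX hrs v hv hwd h hh hlim σ
  have hX0 : (0 : ℝ) < X := by exact_mod_cast (by omega : 0 < X)
  have hX1 : (1 : ℝ) ≤ X := by exact_mod_cast (by omega : 1 ≤ X)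
  have hd0 : (0 : ℝ) < d := by exact_mod_cast (by omega : 0 < d)
  -- a coefficient which is not zero
  obtain ⟨p0, hp0⟩ : ∃ p, cf d F p ≠ 0 := by
    by_contra hcon
    push Not at hcon
    apply hrs
    have h1 : ∀ i, F i = 0 := by
      intro i
      ext μ
      rw [MvPolynomial.coeff_zero]
      by_contra hne
      obtain ⟨j, hj⟩ := coeff_hom hF i μ hne
      exact hne (hj.trans (hcon _))
    have h2 : dh (0 : MvPolynomial (Fin 2) K) = 0 := by
      unfold dh
      exact map_zero _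
    unfold rs
    rw [h1 0, h1 1, h2]
    have h3 : d ≠ 0 := by omega
    rw [Polynomial.resultant_zero_left]
    simp [h3]
  -- a coordinate which is not zero
  obtain ⟨l0, hl0⟩ : ∃ l, v l ≠ 0 := by
    by_contra hcon
    push Not at hcon
    exact hv (funext hcon)
  set c : K := (cf d F p0)⁻¹ with hc
  have hc0 : c ≠ 0 := inv_ne_zero hp0
  set F' : Fin 2 → MvPolynomial (Fin 2) K := fun i => C c * F i with hF'
  set v' : Fin 2 → K := (v l0)⁻¹ • v with hv'
  have hv0 : (v l0)⁻¹ ≠ 0 := inv_ne_zero hl0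
  have hF'hom : ∀ i, (F' i).IsHomogeneous d := fun i => by
    have := (MvPolynomial.isHomogeneous_C (Fin 2) c).mul (hF i)
    rwa [zero_add] at this
  have hit := fun j => iter_scale hF c (v l0)⁻¹ hc0 hv0 v j
  -- heights of the orbit
  have horb : ∀ j, d ^ j ≤ N → Height.mulHeight ((ev F')^[j] v') ≤ (X : ℝ) ^ (A1 + 2) := by
    intro j hj
    obtain ⟨e, he, hej⟩ := hit j
    rw [hej, Height.mulHeight_smul_eq_mulHeight _ he]
    have hjN : j ≤ N := (Nat.lt_pow_self (by omega : 1 < d)).le.trans hj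
    have hne : (ev F)^[j] v ≠ 0 := by
      rcases Nat.eq_zero_or_pos j with rfl | hj0
      · exact hv
      · intro h1
        apply hwd 0 j hj0 hjN
        rw [h1]
        simp [wd]
    have hlim' : Tendsto (fun i : ℕ => Real.log (Height.mulHeight ((ev F)^[i]
        ((ev F)^[j] v))) / (d : ℝ) ^ i) atTop (𝓝 ((d : ℝ) ^ j * h)) := by
      have h1 := (hlim.comp (tendsto_add_atTop_nat j)).const_mul ((d : ℝ) ^ j)
      refine h1.congr fun i => ?_
      simp only [Function.comp]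
      rw [Function.iterate_add_apply, pow_add]
      field_simp
    have h2 := hA1 K hK X hX F hF hFX hrs _ hne _ hlim'
    have hlog : 0 ≤ Real.log X := Real.log_nonneg hX1
    have hN0 : (0 : ℝ) < N := by exact_mod_cast (by omega : 0 < N)
    have h3 : (d : ℝ) ^ j * h ≤ Real.log X := by
      have h4 : (d : ℝ) ^ j ≤ N := by exact_mod_cast hj
      calc (d : ℝ) ^ j * h ≤ (d : ℝ) ^ j * (Real.log X / N) := by gcongr
        _ ≤ N * (Real.log X / N) := by gcongr
        _ = Real.log X := by field_simp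
    have hpos : 0 < Height.mulHeight ((ev F)^[j] v) := Height.mulHeight_pos _
    rw [← Real.log_le_log_iff hpos (by positivity), Real.log_pow]
    push_cast
    linarith
  -- the generators
  set gens : (Fin 2 × Fin (d + 1)) ⊕ Fin 2 → K := Sum.elim (fun p => c * cf d F p) v' with hgens
  set E : IntermediateField ℚ K := IntermediateField.adjoin ℚ (Set.range gens) with hE
  have hmem : ∀ l, gens l ∈ E := fun l => IntermediateField.subset_adjoin _ _ ⟨l, rfl⟩
  have hXA : (X : ℝ) ≤ (X : ℝ) ^ (A1 + 2) := le_self_pow₀ hX1 (by omega)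
  have hgenh : ∀ l, Height.mulHeight₁ (gens l) ≤ (X : ℝ) ^ (A1 + 2) := by
    intro l
    rcases l with p | l
    · refine le_trans ?_ hXA
      refine le_trans ?_ hFX
      show Height.mulHeight₁ (c * cf d F p) ≤ _
      have e1 : c * cf d F p = cf d F p / cf d F p0 := by
        rw [hc, div_eq_mul_inv, mul_comm]
      rw [e1, Height.mulHeight₁_div_eq_mulHeight]
      have e2 : ![cf d F p, cf d F p0] = cf d F ∘ ![p, p0] := by
        funext i
        fin_cases i <;> rfl
      rw [e2]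
      exact Height.mulHeight_comp_le _ _
    · show Height.mulHeight₁ (v' l) ≤ _
      have h1 := horb 0 (by simpa using hN)
      rw [Function.iterate_zero_apply, hv', Height.mulHeight_smul_eq_mulHeight _ hv0] at h1
      refine le_trans ?_ h1
      have e1 : v' l = v l / v l0 := by
        rw [hv', Pi.smul_apply, smul_eq_mul, div_eq_mul_inv, mul_comm]
      rw [e1, Height.mulHeight₁_div_eq_mulHeight]
      have e2 : ![v l, v l0] = v ∘ ![l, l0] := by
        funext i
        fin_cases i <;> rfl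
      rw [e2]
      exact Height.mulHeight_comp_le _ _
  -- the field
  have hEfin : Module.finrank ℚ E ≤ D := by
    refine le_trans ?_ hK
    exact Submodule.finrank_le E.toSubalgebra.toSubmodule
  set e : ((Fin 2 × Fin (d + 1)) ⊕ Fin 2) ≃ Fin M := Fintype.equivFin _ with he
  set cc : Fin M → E := fun j => ⟨gens (e.symm j), hmem _⟩ with hcc
  have htop' : ∀ inst : Algebra ℚ E, @IntermediateField.adjoin ℚ _ E _ inst (Set.range cc) = ⊤ := by
    intro inst
    obtain rfl : inst = E.algebra' := Subsingleton.elim _ _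
    apply IntermediateField.map_injective E.val
    rw [IntermediateField.adjoin_map]
    have e1 : E.val '' (Set.range cc) = Set.range gens := by
      ext z
      constructor
      · rintro ⟨_, ⟨j, rfl⟩, rfl⟩
        exact ⟨e.symm j, rfl⟩
      · rintro ⟨l, rfl⟩
        exact ⟨cc (e l), ⟨e l, rfl⟩, by simp [hcc]⟩
    rw [e1, ← hE]
    ext z
    constructor
    · intro hz
      exact ⟨⟨z, hz⟩, trivial, rfl⟩
    · rintro ⟨y, -, rfl⟩
      exact y.2
  have htop : IntermediateField.adjoin ℚ (Set.range cc) = ⊤ := htop' _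
  have hA1A2 : A1 + 2 ≤ A2 := by
    rw [hA2]
    exact Nat.le_mul_of_pos_right _ (by omega)
  set H1 : ℕ := X ^ (A1 + 2) with hH1
  have hH1' : ((H1 : ℕ) : ℝ) = (X : ℝ) ^ (A1 + 2) := by rw [hH1]; push_cast; rfl
  have hH12 : 2 ≤ H1 := le_trans hX (by
    rw [hH1]
    exact Nat.le_self_pow (by omega) X)
  obtain ⟨θ, hθtop, hθH⟩ := hCg E hEfin cc htop H1 hH12 (by
    intro j
    rw [hH1']
    exact (ht_sub E _).trans (hgenh _))
  set H2 : ℕ := X ^ A2 with hH2
  have hH2' : ((H2 : ℕ) : ℝ) = (X : ℝ) ^ A2 := by rw [hH2]; push_cast; rfl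
  have hA2pos : 1 ≤ A2 := by
    rw [hA2]
    exact Nat.mul_pos (by omega) (by omega)
  have hH22 : 2 ≤ H2 := le_trans hX (by
    rw [hH2]
    exact Nat.le_self_pow (by omega) X)
  have hle : ∀ B : ℕ, B ≤ A2 → (X : ℝ) ^ B ≤ (H2 : ℝ) := by
    intro B hB
    rw [hH2']
    exact pow_le_pow_right₀ hX1 hB
  have hθ2 : Height.mulHeight₁ θ ≤ (H2 : ℝ) := by
    refine hθH.trans ?_
    rw [hH1', ← pow_mul]
    apply hle
    rw [hA2]
    exact Nat.mul_le_mul_left _ (by omega)
  obtain ⟨hind, hco⟩ := hCc E hEfin θ hθtop H2 hH22 hθ2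
  set r : ℕ := Module.finrank ℚ E with hr
  have hr1 : 1 ≤ r := Module.finrank_pos
  -- coordinates of an element of `E`
  have hCoE : ∀ z : E, Height.mulHeight₁ z ≤ (X : ℝ) ^ A2 →
      Co r (σ (θ : K)) (X ^ (A2 * Cc)) (σ (z : K)) := by
    intro z hzH
    obtain ⟨b, hb, hbH⟩ := hco z (by rw [hH2']; exact hzH)
    refine ⟨b, ?_, fun l => (hbH l).trans (by rw [hH2, ← pow_mul])⟩
    have h1 : (z : K) = ((∑ l, (b l : E) * θ ^ (l : ℕ) : E) : K) := congrArg _ hb
    rw [h1]
    push_cast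
    rw [map_sum]
    refine Finset.sum_congr rfl fun l _ => ?_
    rw [map_mul, map_pow, map_ratCast]
  have hCo : ∀ z : K, z ∈ E → Height.mulHeight₁ z ≤ (X : ℝ) ^ A2 →
      Co r (σ (θ : K)) (X ^ (A2 * Cc)) (σ z) := by
    intro z hz hzH
    exact hCoE ⟨z, hz⟩ ((ht_sub E _).trans hzH)
  have hevmem : ∀ j l, (ev F')^[j] v' l ∈ E := by
    intro j
    refine ev_mem E F' ?_ v' (fun l => hmem (.inr l)) j
    intro i μ
    by_cases h0 : (F i).coeff μ = 0
    · rw [hF']
      simp only [MvPolynomial.coeff_C_mul, h0, mul_zero]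
      exact zero_mem E
    · obtain ⟨j, hj⟩ := coeff_hom hF i μ h0
      rw [hF']
      simp only [MvPolynomial.coeff_C_mul, hj]
      exact hmem (.inl (i, j))
  -- the map over ℂ
  set g : FC := fun i => (C c * F i).map σ with hg
  have hgit : ∀ j, (ev g)^[j] (σ ∘ v') = σ ∘ (ev F')^[j] v' := by
    intro j
    exact iter_map σ F' v' j
  have hA1A2 : A1 + 2 ≤ A2 := by
    rw [hA2]
    exact Nat.le_mul_of_pos_right _ (by omega)
  refine ⟨c, hc0, r, σ (θ : K), σ ∘ v', ?_⟩
  refine ⟨hr1, hEfin, fun i => (hF'hom i).map _, ?_, ?_, ?_, ?_, ?_, ?_, ?_⟩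
  · -- resultant
    have h1 : rs g d = σ (rs F' d) := by
      have := rsR_map σ F' d
      exact this
    rw [h1]
    refine (map_ne_zero σ).2 ?_
    unfold rs
    have h2 : ∀ i, dh (F' i) = Polynomial.C c * dh (F i) := by
      intro i
      simp [hF', dh]
    rw [h2, h2, Polynomial.resultant_C_mul_left, Polynomial.resultant_C_mul_right]
    exact mul_ne_zero (pow_ne_zero _ hc0) (mul_ne_zero (pow_ne_zero _ hc0) hrs)
  · intro b hb
    apply hind b
    have h1 : σ ((∑ l, (b l : E) * θ ^ (l : ℕ) : E) : K) = 0 := by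
      rw [← hb]
      push_cast
      simp
    have h2 : ((∑ l, (b l : E) * θ ^ (l : ℕ) : E) : K) = 0 := (map_eq_zero σ).1 h1
    exact_mod_cast h2
  · have h1 := hCoE (θ ^ r) ?_
    · push_cast at h1
      rwa [map_pow] at h1
    · rw [Height.mulHeight₁_pow]
      calc Height.mulHeight₁ θ ^ r ≤ ((H1 : ℝ) ^ Cg) ^ r :=
            pow_le_pow_left₀ (Height.mulHeight₁_nonneg _) hθH r
        _ = (X : ℝ) ^ ((A1 + 2) * (Cg * r)) := by rw [hH1', ← pow_mul, ← pow_mul, ← mul_assoc]
        _ ≤ (X : ℝ) ^ A2 := by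
          refine pow_le_pow_right₀ hX1 ?_
          rw [hA2]
          refine Nat.mul_le_mul_left _ ?_
          have : Cg * r ≤ Cg * D := Nat.mul_le_mul_left _ hEfin
          omega
  · intro i μ
    have h1 : (g i).coeff μ = σ (c * (F i).coeff μ) := by
      rw [hg]
      simp only [MvPolynomial.coeff_map, MvPolynomial.coeff_C_mul]
    rw [h1]
    by_cases h0 : (F i).coeff μ = 0
    · rw [h0, mul_zero, map_zero]
      refine ⟨0, by simp, fun l => ?_⟩
      rw [Pi.zero_apply, hq_zero]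
      exact Nat.one_le_pow _ _ (by omega)
    · obtain ⟨j, hj⟩ := coeff_hom hF i μ h0
      rw [hj]
      exact hCo _ (hmem (.inl (i, j)))
        ((hgenh (.inl (i, j))).trans (pow_le_pow_right₀ hX1 hA1A2))
  · intro l
    exact hCo _ (hmem (.inr l)) ((hgenh (.inr l)).trans (pow_le_pow_right₀ hX1 hA1A2))
  · intro i j hij hj
    rw [hgit, hgit]
    have h1 : wd (σ ∘ (ev F')^[i] v') (σ ∘ (ev F')^[j] v') =
        σ (wd ((ev F')^[i] v') ((ev F')^[j] v')) := wdR_map σ _ _
    rw [h1]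
    refine (map_ne_zero σ).2 ?_
    obtain ⟨e1, he1, h2⟩ := hit i
    obtain ⟨e2, he2, h3⟩ := hit j
    rw [h2, h3]
    have h4 : wd (e1 • (ev F)^[i] v) (e2 • (ev F)^[j] v) =
        e1 * e2 * wd ((ev F)^[i] v) ((ev F)^[j] v) := by
      simp only [wd, Pi.smul_apply, smul_eq_mul]
      ring
    rw [h4]
    exact mul_ne_zero (mul_ne_zero he1 he2) (hwd i j hij hj)
  · intro j hj hj1
    rw [hgit] at hj1 ⊢
    simp only [Function.comp] at hj1 ⊢
    rw [← map_div₀]
    refine hCo _ (div_mem (hevmem j 0) (hevmem j 1)) ?_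
    rw [Height.mulHeight₁_div_eq_mulHeight]
    have e2 : ![(ev F')^[j] v' 0, (ev F')^[j] v' 1] = (ev F')^[j] v' := by
      funext i
      fin_cases i <;> rfl
    rw [e2]
    exact (horb j hj).trans (pow_le_pow_right₀ hX1 hA1A2)

end Pool.Agent.Q256.FX
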