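import Pool.Agent.Q256.FX.Abs

/-!
# Project FX (helper256): few exceptional classes
-/

set_option autoImplicit false

open MvPolynomial Filter Topology

namespace Pool.Agent.Q256.FX

open Pool.Agent.H951R3.PB (wd ev rs dh)

/-- the generic map over an abstract field -/
noncomputable def fgen {K : Type} [Field K] (d : ℕ) (z : Lam d → K) :
    Fin 2 → MvPolynomial (Fin 2) K := fun i =>
  ∑ μ : {μ // μ ∈ mons d}, monomial μ.1 (z (.inl (i, μ)))

theorem fgen_hom {K : Type} [Field K] (d : ℕ) (z : Lam d → K) (i : Fin 2) :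
    (fgen d z i).IsHomogeneous d := by
  unfold fgen
  refine MvPolynomial.IsHomogeneous.sum _ _ _ fun μ _ => ?_
  exact MvPolynomial.isHomogeneous_monomial _ (mem_mons.1 μ.2)

theorem contra (habs : S_abs) (halg : S_alg) (hbn : S_bakern) (hcj : S_conj)
    (hht : S_ht) (hprim : S_prim) (d : ℕ) (hd : 2 ≤ d) (a : ℕ) (ha : 1 ≤ a)
    (X : ℕ → ℕ) (hX2 : ∀ N, 2 ≤ X N) (hXt : Tendsto X atTop atTop)
    (𝒢 : ℕ → Finset Fm) (h𝒢 : ∀ N, ∀ F ∈ 𝒢 N, F ∈ MapsN d (X N))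
    (hcard : ∀ N, (N + 1) * X N < (𝒢 N).card ^ a)
    (hrep : ∀ N, ∀ F ∈ 𝒢 N, ∀ G ∈ 𝒢 N, CJ (fq F) (fq G) → F = G)
    (hexc : ∀ N, ∀ F ∈ 𝒢 N, Exc d (N + 1) (X N) F) : False := by
  classical
  obtain ⟨A, hA⟩ := orb_height hht d hd
  -- the points
  have hu : ∀ ω : ℕ × Fm, ∃ u : Fin 2 → ℤ, ω.2 ∈ 𝒢 ω.1 → PtOK d (ω.1 + 1) (X ω.1) ω.2 u := by
    intro ω
    by_cases h : ω.2 ∈ 𝒢 ω.1
    · obtain ⟨u, hu⟩ := exists_pt hprim (h𝒢 _ _ h) (hexc _ _ h)
      exact ⟨u, fun _ => hu⟩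
    · exact ⟨0, fun h' => absurd h' h⟩
  choose u hu using hu
  set T : Set (ℕ × Fm) := {ω | ω.2 ∈ 𝒢 ω.1} with hT
  have hhom : ∀ ω ∈ T, ∀ i, (ω.2 i).IsHomogeneous d := fun ω hω => (h𝒢 _ _ hω).1
  have hfib : ∀ N, {s | (N, s) ∈ T} = (𝒢 N : Set Fm) := fun N => rfl
  have hTfin : ∀ N, {s | (N, s) ∈ T}.Finite := fun N => by
    rw [hfib]
    exact Finset.finite_toSet _
  set 𝒰 : Ultrafilter ℕ := Filter.hyperfilter ℕ with h𝒰
  have h𝒰le : (𝒰 : Filter ℕ) ≤ atTop := Nat.hyperfilter_le_atTop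
  have hns : ¬ Small 𝒰 X a T := by
    rintro ⟨C, hC⟩
    obtain ⟨N, hN, hNC⟩ := (hC.and (h𝒰le (eventually_ge_atTop C))).exists
    have h1 := hN.2
    rw [hfib, Set.ncard_coe_finset] at h1
    have h2 := hcard N
    have h3 : C * X N ≤ (N + 1) * X N := Nat.mul_le_mul_right _ (by omega)
    omega
  have hheight : ∀ ω ∈ T, ∀ l : Lam d, hq (zz d u l ω) ≤ X ω.1 ^ (A + 1) := by
    intro ω hω l
    have hX := hX2 ω.1
    have hpow : X ω.1 ≤ X ω.1 ^ (A + 1) := by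
      calc X ω.1 = X ω.1 ^ 1 := (pow_one _).symm
        _ ≤ _ := Nat.pow_le_pow_right (by omega) (by omega)
    have hint : ∀ m : ℤ, hq (m : ℚ) = max m.natAbs 1 := by
      intro m
      simp [hq]
    rcases l with ⟨i, μ⟩ | l
    · have h1 := (h𝒢 _ _ hω).2.1 i μ.1
      show hq (((ω.2 i).coeff μ.1 : ℤ) : ℚ) ≤ _
      rw [hint]
      exact max_le (h1.trans hpow) (by omega)
    · show hq ((u ω l : ℤ) : ℚ) ≤ _
      rw [hint]
      have h2 := (hA (X ω.1) hX ω.2 (h𝒢 _ _ hω) (ω.1 + 1) (u ω) (by omega) (hu ω hω) 0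
        (by simp)).2
      rw [Function.iterate_zero_apply, (hu ω hω).2.1] at h2
      have h3 : max (u ω 0).natAbs (u ω 1).natAbs ≤ X ω.1 ^ (A + 1) := by exact_mod_cast h2
      refine max_le ?_ (by omega)
      refine le_trans ?_ h3
      fin_cases l
      · exact le_max_left _ _
      · exact le_max_right _ _
  obtain ⟨w, hTw, hsub, K, _, _, ψ, n, y, z, hFG, hind, hyalg, hz, hstar⟩ :=
    habs Fm 𝒰 X (hXt.mono_left h𝒰le) hX2 (Lam d) (zz d u) T (A + 1) a ha hTfin hheight hns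
  have hTae : ∀ᶠ ω in (w.W : Filter (ℕ × Fm)), ω ∈ T := hTw
  have hNae : ∀ j : ℕ, ∀ᶠ ω in (w.W : Filter (ℕ × Fm)), j ≤ ω.1 := fun j =>
    w.tendsto (h𝒰le (eventually_ge_atTop j))
  have : CharZero (kf 𝒰 X) := charZero_kf 𝒰 X
  have hψi : Function.Injective ψ := ψ.injective
  have : CharZero K := by
    have : CharZero (RR w ℚ) := charZero_germ (w.W : Filter (ℕ × Fm))
    exact (ψ : K →+* RR w ℚ).charZero
  -- the generic map and orbit
  set f := fgen d z with hf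
  have hfhom : ∀ i, (f i).IsHomogeneous d := fgen_hom d z
  have hmpf : mp (ψ : K →+* RR w ℚ) f = mp (gh w ℚ) (fhat d) := by
    funext i
    unfold mp
    rw [hf]
    unfold fgen fhat
    rw [map_sum, map_sum]
    refine Finset.sum_congr rfl fun μ _ => ?_
    rw [MvPolynomial.map_monomial, MvPolynomial.map_monomial]
    congr 1
    exact hz _
  set p0 : Fin 2 → K := fun l => z (.inr l) with hp0
  have hp0ψ : (ψ : K →+* RR w ℚ) ∘ p0 = gh w ℚ ∘ uhat u := by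
    funext l
    exact hz _
  set P : ℕ → Fin 2 → K := fun j => (ev f)^[j] p0 with hP
  have hPψ : ∀ j, (ψ : K →+* RR w ℚ) ∘ P j = gh w ℚ ∘ orb d u j := by
    intro j
    have h1 := iter_map (ψ : K →+* RR w ℚ) f p0 j
    have h2 := iter_map (gh w ℚ) (fhat d) (uhat u) j
    rw [hmpf, hp0ψ, h2] at h1
    exact h1.symm
  have hPψ' : ∀ j i, ψ (P j i) = gm w (orb d u j i) := fun j i => congrFun (hPψ j) i
  have hrs : rs f d ≠ 0 := by
    have h1 := rsR_map (ψ : K →+* RR w ℚ) f d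
    rw [hmpf, rsR_map] at h1
    have h2 : gm w (rsR (fhat d) d) ≠ 0 := by
      apply ne_gm
      filter_upwards [hTae] with ω hω
      rw [at_rs ω (hhom ω hω)]
      exact (h𝒢 _ _ hω).2.2
    intro h0
    apply h2
    rw [← gh_apply, h1]
    show ψ (rs f d) = 0
    rw [h0, map_zero]
  have hwd : ∀ i j, i < j → wd (P i) (P j) ≠ 0 := by
    intro i j hij h0
    have h1 := wdR_map (ψ : K →+* RR w ℚ) (P i) (P j)
    rw [hPψ, hPψ, wdR_map] at h1
    have h2 : gm w (wdR (orb d u i) (orb d u j)) ≠ 0 := by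
      apply ne_gm
      filter_upwards [hTae, hNae j] with ω hω hj
      rw [at_wd u i j ω (hhom ω hω)]
      exact (hu ω hω).2.2.1 i j hij (by omega)
    apply h2
    rw [← gh_apply, h1]
    show ψ (wd (P i) (P j)) = 0
    rw [h0, map_zero]
  have hwd' : ∀ i j, i ≠ j → wd (P i) (P j) ≠ 0 := by
    intro i j hij
    rcases lt_or_gt_of_ne hij with h | h
    · exact hwd i j h
    · intro h0
      apply hwd j i h
      have : wd (P j) (P i) = - wd (P i) (P j) := by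
        simp only [wd]
        ring
      rw [this, h0, neg_zero]
  have hPs : ∀ j, ∃ c : K, c ≠ 0 ∧ ev f (P j) = c • P (j + 1) := fun j =>
    ⟨1, one_ne_zero, by rw [one_smul, hP]; simp only; rw [Function.iterate_succ_apply']⟩
  -- bounded degrees
  obtain ⟨b, hb⟩ := hstar (A + 1)
  have hrel : ∀ j, P j 1 ≠ 0 → ∃ c : Fin 1 → K, P j 0 / P j 1 = ∑ l, c l * (fun _ => (1 : K)) l ∧
      ∀ l, ∃ F : MvPolynomial (Fin (n + 1)) (kf 𝒰 X), F ≠ 0 ∧ F.totalDegree ≤ b ∧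
        aeval (cn (c l) y) F = 0 := by
    intro j hj
    refine ⟨fun _ => P j 0 / P j 1, by simp, fun _ => ?_⟩
    refine hb (fun ω => orb d u j 0 ω / orb d u j 1 ω) _ ?_ ?_
    · rw [map_div₀, hPψ', hPψ']
      rfl
    · filter_upwards [hTae, hNae (d ^ j)] with ω hω hN
      obtain ⟨h1, h2⟩ := hA (X ω.1) (hX2 _) ω.2 (h𝒢 _ _ hω) (ω.1 + 1) (u ω) (by omega) (hu ω hω) j
        (by omega)
      rw [← at_orb u j ω (hhom ω hω)] at h1 h2
      by_cases h3 : orb d u j 1 ω = 0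
      · rw [h3, div_zero, hq_zero]
        exact Nat.one_le_pow _ _ (by have := hX2 ω.1; omega)
      · obtain ⟨u', c, _, _, _, h4, h5⟩ := hprim _ h1
        rw [h4] at h2
        rw [h5 h3]
        exact_mod_cast h2
  have hcross := hbn (kf 𝒰 X) K hFG n y hind hyalg d hd f hfhom hrs P hPs hwd' 1 b
    (fun _ => 1) hrel
  -- conjugation
  obtain ⟨M, g, c, hM, hc, hghom, hgE, hconj⟩ := hcj K (algebraicClosure (kf 𝒰 X) K).toSubfield d
    (by omega) f hfhom hrs P hPs hwd' (by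
      intro j hj
      exact mem_algebraicClosure_iff.2 (hcross 0 1 2 j (by omega) (by omega) (by omega) (by omega)
        (by omega) (by omega)))
  have hgb : ∀ i μ, ∃ b' : ℕ → ℚ, (ψ : K →+* RR w ℚ) ((g i).coeff μ) =
      gm w (fun ω => b' ω.1) := by
    intro i μ
    have h1 : IsAlgebraic (kf 𝒰 X) ((g i).coeff μ) := mem_algebraicClosure_iff.1 (hgE i μ)
    have h2 : IsAlgebraic (kf 𝒰 X) (ψ ((g i).coeff μ)) := h1.algHom ψ
    obtain ⟨r, hr⟩ : ∃ r : ℕ × Fm → ℚ, gm w r = ψ ((g i).coeff μ) := by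
      generalize ψ ((g i).coeff μ) = x
      induction x using Germ.inductionOn with | _ r => exact ⟨r, rfl⟩
    rw [← hr] at h2
    obtain ⟨b', hb'⟩ := halg Fm 𝒰 X w ℚ r h2
    exact ⟨b', by rw [← hb', hr]; rfl⟩
  obtain ⟨G, hG⟩ := conj_ae w d K (ψ : K →+* RR w ℚ) f hmpf M g c hM hc hgb hconj
  have hB : {ω : ℕ × Fm | ω ∈ T ∧ CJ (fq ω.2) (G ω.1)} ∈ w.W := by
    have h1 : ∀ᶠ ω in (w.W : Filter (ℕ × Fm)), ω ∈ T ∧ CJ (fq ω.2) (G ω.1) := by
      filter_upwards [hTae, hG] with ω h1 h2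
      exact ⟨h1, h2 (hhom ω h1)⟩
    exact h1
  refine hsub _ ?_ hB
  intro N F hF F' hF'
  exact hrep N F hF.1 F' hF'.1 (hF.2.trans' hF'.2.symm')

/-- The maps with exceptional points lie in few conjugacy classes. -/
def S_few : Prop := ∀ d : ℕ, 2 ≤ d → ∀ a : ℕ, 1 ≤ a → ∃ N : ℕ, 1 ≤ N ∧ ∀ X : ℕ, 2 ≤ X →
  ∃ 𝒢 : Finset Fm, (𝒢 : Set Fm) ⊆ MapsN d X ∧ 𝒢.card ^ a ≤ N * X ∧
    ∀ F ∈ MapsN d X, Exc d N X F → ∃ G ∈ 𝒢, CJ (fq F) (fq G)

theorem few (habs : S_abs) (halg : S_alg) (hbn : S_bakern) (hcj : S_conj)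
    (hht : S_ht) (hprim : S_prim) : S_few := by
  classical
  intro d hd a ha
  by_contra hcon
  push Not at hcon
  have h1 : ∀ N : ℕ, ∃ X : ℕ, 2 ≤ X ∧ ∃ 𝒢 : Finset Fm, (∀ F ∈ 𝒢, F ∈ MapsN d X) ∧
      (N + 1) * X < 𝒢.card ^ a ∧ (∀ F ∈ 𝒢, ∀ G ∈ 𝒢, CJ (fq F) (fq G) → F = G) ∧
      ∀ F ∈ 𝒢, Exc d (N + 1) X F := by
    intro N
    obtain ⟨X, hX, h⟩ := hcon (N + 1) (by omega)
    refine ⟨X, hX, ?_⟩
    obtain ⟨𝒢, h2, h3, h4⟩ := exists_reps (fun F G : Fm => CJ (fq F) (fq G))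
      (fun _ _ h => h.symm') (fun _ => CJ.refl' _) {F | F ∈ MapsN d X ∧ Exc d (N + 1) X F}
      ((finite_MapsN d X).subset fun F hF => hF.1)
    refine ⟨𝒢, fun F hF => (h2 hF).1, ?_, h3, fun F hF => (h2 hF).2⟩
    by_contra hle
    push Not at hle
    obtain ⟨F, hF, hFe, hno⟩ := h 𝒢 (fun F hF => (h2 hF).1) hle
    obtain ⟨G, hG, hFG⟩ := h4 F ⟨hF, hFe⟩
    exact hno G hG hFG
  choose X hX2 𝒢 h𝒢 hcard hrep hexc using h1
  have hXt : Tendsto X atTop atTop := by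
    rw [tendsto_atTop]
    intro B
    rw [eventually_atTop]
    set c := (finite_MapsN d B).toFinset.card with hc
    refine ⟨c ^ a, fun N hN => ?_⟩
    by_contra hlt
    push Not at hlt
    have h5 : 𝒢 N ⊆ (finite_MapsN d B).toFinset := by
      intro F hF
      rw [Set.Finite.mem_toFinset]
      obtain ⟨h6, h7, h8⟩ := h𝒢 N F hF
      exact ⟨h6, fun i μ => (h7 i μ).trans hlt.le, h8⟩
    have h6 : (𝒢 N).card ≤ c := Finset.card_le_card h5
    have h7 : (𝒢 N).card ^ a ≤ c ^ a := Nat.pow_le_pow_left h6 a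
    have h8 := hcard N
    have h9 := hX2 N
    nlinarith
  exact contra habs halg hbn hcj hht hprim d hd a ha X hX2 hXt 𝒢 h𝒢 hcard hrep hexc

end Pool.Agent.Q256.FX
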