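import Pool.Agent.Q256.FX.Fin

/-!
# Project FX (helper256): the nonstandard theorem with an abstract field
-/

set_option autoImplicit false

open MvPolynomial Filter Topology

namespace Pool.Agent.Q256.FX

/-- `S_main` with the generated field as an abstract field `K`. -/
def S_abs : Prop := ∀ (ι : Type) (𝒰 : Ultrafilter ℕ) (X : ℕ → ℕ),
  Tendsto X (𝒰 : Filter ℕ) atTop → (∀ N, 2 ≤ X N) →
  ∀ (Λ : Type) [Fintype Λ] (Z : Λ → ℕ × ι → ℚ) (T : Set (ℕ × ι)) (A0 a0 : ℕ), 1 ≤ a0 →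
    (∀ N, {s | (N, s) ∈ T}.Finite) → (∀ ω ∈ T, ∀ i, hq (Z i ω) ≤ X ω.1 ^ A0) →
    ¬ Small 𝒰 X a0 T →
    ∃ w : UF 𝒰 ι, T ∈ w.W ∧
      (∀ B : Set (ℕ × ι), (∀ N, {s | (N, s) ∈ B}.Subsingleton) → B ∉ w.W) ∧
      ∃ (K : Type) (_ : Field K) (_ : Algebra (kf 𝒰 X) K) (ψ : K →ₐ[kf 𝒰 X] RR w ℚ) (n : ℕ)
        (y : Fin n → K) (z : Λ → K),
        (⊤ : IntermediateField (kf 𝒰 X) K).FG ∧ AlgebraicIndependent (kf 𝒰 X) y ∧
        (∀ c : K, IsAlgebraic (IntermediateField.adjoin (kf 𝒰 X) (Set.range y)) c) ∧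
        (∀ j, ψ (z j) = gm w (Z j)) ∧
        ∀ A : ℕ, ∃ b : ℕ, ∀ (g : ℕ × ι → ℚ) (c : K), ψ c = gm w g →
          (∀ᶠ ω in (w.W : Filter (ℕ × ι)), hq (g ω) ≤ X ω.1 ^ A) →
          ∃ F : MvPolynomial (Fin (n + 1)) (kf 𝒰 X), F ≠ 0 ∧ F.totalDegree ≤ b ∧
            aeval (cn c y) F = 0

theorem abs_of_main (hmain : S_main) : S_abs := by
  intro ι 𝒰 X hX hX2 Λ _ Z T A0 a0 ha0 hfin hht hns
  classical
  let e := Fintype.equivFin Λ
  obtain ⟨w, hT, hsub, n, J, hind, halg, hstar⟩ := hmain ι 𝒰 X hX hX2 (Fintype.card Λ)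
    (fun i => Z (e.symm i)) T A0 a0 ha0 hfin (fun ω hω i => hht ω hω _) hns
  refine ⟨w, hT, hsub, ?_⟩
  set S : Set (RR w ℚ) := Set.range fun j => gm w (Z (e.symm j)) with hS
  set K := IntermediateField.adjoin (kf 𝒰 X) S with hK
  have hmem : ∀ j, gm w (Z (e.symm j)) ∈ K := fun j =>
    IntermediateField.subset_adjoin _ _ ⟨j, rfl⟩
  let y : Fin n → K := fun i => ⟨gm w (Z (e.symm (J i))), hmem _⟩
  have hmem' : ∀ l, gm w (Z l) ∈ K := by
    intro l
    have := hmem (e l)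
    simpa using this
  refine ⟨K, inferInstance, inferInstance, K.val, n, y, fun l => ⟨gm w (Z l), hmem' l⟩, ?_, ?_, ?_,
    fun j => rfl, ?_⟩
  · rw [IntermediateField.fg_top_iff, IntermediateField.essFiniteType_iff]
    exact IntermediateField.fg_adjoin_of_finite (Set.finite_range _)
  · exact AlgebraicIndependent.of_comp K.val hind
  · intro c
    have h1 := alg_all S (Set.range fun i => gm w (Z (e.symm (J i)))) (by
      rintro _ ⟨i, rfl⟩
      exact hmem _) (by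
      rintro _ ⟨j, rfl⟩
      exact halg j) c
    have h2 : (Subtype.val : K → RR w ℚ) ⁻¹' (Set.range fun i => gm w (Z (e.symm (J i)))) =
        Set.range y := by
      ext z
      constructor
      · rintro ⟨i, hi⟩
        exact ⟨i, Subtype.ext hi⟩
      · rintro ⟨i, rfl⟩
        exact ⟨i, rfl⟩
    rw [h2] at h1
    exact h1
  · intro A
    obtain ⟨b, hb⟩ := hstar A
    refine ⟨b, fun g c hc hg => ?_⟩
    have h1 : gm w g ∈ IntermediateField.adjoin (kf 𝒰 X) S := by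
      rw [← hc]
      exact c.2
    obtain ⟨F, hF0, hFb, hF⟩ := hb g h1 hg
    refine ⟨F, hF0, hFb, ?_⟩
    have hinj : Function.Injective (K.val : K → RR w ℚ) := K.val.injective
    apply hinj
    rw [map_zero, MvPolynomial.comp_aeval_apply]
    have h2 : (fun i => K.val (cn c y i)) = cn (gm w g) (fun i => gm w (Z (e.symm (J i)))) := by
      funext i
      refine Fin.cases ?_ (fun i => ?_) i
      · exact hc
      · rfl
    rw [h2]
    exact hF

end Pool.Agent.Q256.FX
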