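import Mathlib

/-!
# Project FX (helper256): definitions and statements of the arithmetic part

Few exceptional classes in the uniform boundedness conjecture.
-/

set_option autoImplicit false

open MvPolynomial

namespace Pool.Agent.Q256.FX

/-- the height of a rational number -/
def hq (r : ℚ) : ℕ := max r.num.natAbs r.den

/-- `m` divides the numerator of `r` -/
def Dv (m : ℕ) (r : ℚ) : Prop := (m : ℤ) ∣ r.num

/-- the vector `(w, y_1, ..., y_n)` -/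
abbrev cn {n : ℕ} {R : Type} (w : R) (y : Fin n → R) : Fin (n + 1) → R := Fin.cons w y

/-- Job DET: the determinant method for one residue class (pigeonhole). -/
def S_det : Prop := ∀ n A m : ℕ, 1 ≤ m → ∃ b C X0 : ℕ, ∀ X : ℕ, X0 ≤ X → ∀ q : ℕ, q.Prime →
  X ≤ q ^ m → q ^ m ≤ X ^ 2 → ∀ (T : Type) (y : T → Fin n → ℚ) (w : T → ℚ),
    (∀ s i, hq (y s i) ≤ X ^ A) → (∀ s, hq (w s) ≤ X ^ A) →
    (∀ s i, ¬ q ∣ (y s i).den) → (∀ s, ¬ q ∣ (w s).den) →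
    (∀ s t i, Dv q (y s i - y t i)) →
    (∀ e : ℕ, ∃ p : MvPolynomial (Fin n) ℤ, ∀ s, Dv (q ^ e) (w s - aeval (y s) p)) →
    ∃ F : MvPolynomial (Fin (n + 1)) ℤ, F ≠ 0 ∧ F.totalDegree ≤ b ∧
      (∀ μ, (F.coeff μ).natAbs ≤ X ^ C) ∧ ∀ s, aeval (cn (w s) (y s)) F = 0

/-- Job HEN: an algebraic function is congruent to polynomials in a residue class where it is
unramified. -/
def S_hen : Prop := ∀ n q : ℕ, q.Prime → ∀ (T : Type) (y : T → Fin n → ℚ) (w : T → ℚ)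
  (Ψ : MvPolynomial (Fin (n + 1)) ℤ),
    (∀ s i, ¬ q ∣ (y s i).den) → (∀ s, ¬ q ∣ (w s).den) →
    (∀ s t i, Dv q (y s i - y t i)) → (∀ s t, Dv q (w s - w t)) →
    (∀ s, aeval (cn (w s) (y s)) Ψ = 0) →
    (∀ s, ¬ Dv q (aeval (cn (w s) (y s)) (pderiv 0 Ψ))) →
    ∀ e : ℕ, ∃ p : MvPolynomial (Fin n) ℤ, ∀ s, Dv (q ^ e) (w s - aeval (y s) p)

/-- Job CLS: a large part of the points lies on a hypersurface of bounded degree; the bound `b` for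
the degree does not depend on `Ψ`. -/
def S_cls : Prop := ∀ n A m : ℕ, 1 ≤ m → ∃ b : ℕ, ∀ B : ℕ, ∃ C X0 : ℕ, ∀ X : ℕ, X0 ≤ X →
  ∀ (ι : Type) (T : Finset ι) (y : ι → Fin n → ℚ) (w : ι → ℚ) (Ψ : MvPolynomial (Fin (n + 1)) ℤ),
    Ψ.totalDegree ≤ B → (∀ μ, (Ψ.coeff μ).natAbs ≤ X ^ B) →
    (∀ s ∈ T, ∀ i, hq (y s i) ≤ X ^ A) → (∀ s ∈ T, hq (w s) ≤ X ^ A) →
    (∀ s ∈ T, aeval (cn (w s) (y s)) Ψ = 0) →
    (∀ s ∈ T, aeval (cn (w s) (y s)) (pderiv 0 Ψ) ≠ 0) →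
    ∃ T' ⊆ T, T.card ^ m ≤ C * X ^ (2 * (n + 1)) * T'.card ^ m ∧
      ∃ F : MvPolynomial (Fin (n + 1)) ℤ, F ≠ 0 ∧ F.totalDegree ≤ b ∧
        (∀ μ, (F.coeff μ).natAbs ≤ X ^ C) ∧ ∀ s ∈ T', aeval (cn (w s) (y s)) F = 0

end Pool.Agent.Q256.FX
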