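import Pool.Agent.Q175.FX.Hen

/-!
# Project FX (helper256): the determinant method (pigeonhole)
-/

set_option autoImplicit false

open MvPolynomial

namespace Pool.Agent.Q256.FX.DT

open Pool.Agent.Q256.FX Pool.Agent.Q175.FX

/-- the exponent vector -/
noncomputable def ex {n K : ℕ} (μ : Fin n → Fin (K + 1)) : Fin n →₀ ℕ :=
  Finsupp.equivFunOnFinite.symm (fun i => (μ i : ℕ))

theorem ex_apply {n K : ℕ} (μ : Fin n → Fin (K + 1)) (i : Fin n) : ex μ i = μ i := rfl

theorem ex_inj {n K : ℕ} : Function.Injective (ex : (Fin n → Fin (K + 1)) → (Fin n →₀ ℕ)) := by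
  intro μ ν h
  funext i
  have := DFunLike.congr_fun h i
  rw [ex_apply, ex_apply] at this
  exact Fin.ext this

/-- the polynomial with coefficients `a` and exponents at most `K` -/
noncomputable def PP {n K : ℕ} (a : (Fin n → Fin (K + 1)) → ℤ) : MvPolynomial (Fin n) ℤ :=
  ∑ μ, monomial (ex μ) (a μ)

theorem coeff_PP {n K : ℕ} (a : (Fin n → Fin (K + 1)) → ℤ) (μ : Fin n → Fin (K + 1)) :
    (PP a).coeff (ex μ) = a μ := by
  classical
  unfold PP
  rw [coeff_sum, Finset.sum_eq_single μ]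
  · rw [coeff_monomial, if_pos rfl]
  · intro ν _ hν
    rw [coeff_monomial, if_neg (fun h => hν (ex_inj h))]
  · intro h
    exact absurd (Finset.mem_univ _) h

theorem coeff_PP_of {n K : ℕ} (a : (Fin n → Fin (K + 1)) → ℤ) (ν : Fin n →₀ ℕ)
    (h : (PP a).coeff ν ≠ 0) : ∃ μ, ex μ = ν ∧ (PP a).coeff ν = a μ := by
  classical
  by_contra hcon
  push Not at hcon
  apply h
  unfold PP
  rw [coeff_sum]
  refine Finset.sum_eq_zero fun μ _ => ?_
  rw [coeff_monomial]
  split_ifs with h1
  · exact absurd (by rw [← h1, coeff_PP]) (hcon μ h1)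
  · rfl

theorem aeval_PP {n K : ℕ} (a : (Fin n → Fin (K + 1)) → ℤ) {R : Type} [CommRing R]
    (z : Fin n → R) : aeval z (PP a) = ∑ μ, (a μ : R) * ∏ i, z i ^ (μ i : ℕ) := by
  unfold PP
  rw [map_sum]
  refine Finset.sum_congr rfl fun μ _ => ?_
  rw [aeval_monomial]
  congr 1
  rw [Finsupp.prod_fintype _ _ (fun i => pow_zero _)]
  rfl

/-- two polynomials with congruent low coefficients have congruent values at multiples of `q` -/
theorem congr_low {n : ℕ} {R : Type} [CommRing R] (q e : ℕ) (h : MvPolynomial (Fin n) ℤ)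
    (hc : ∀ α : Fin n →₀ ℕ, (∀ i, α i < e) → ((q : ℤ) ^ e) ∣ h.coeff α) (t : Fin n → R) :
    ((q : R) ^ e) ∣ aeval (fun i => (q : R) * t i) h := by
  rw [aeval_def, eval₂_eq']
  refine Finset.dvd_sum fun α _ => ?_
  by_cases hα : ∀ i, α i < e
  · obtain ⟨m, hm⟩ := hc α hα
    rw [hm]
    refine Dvd.dvd.mul_right ?_ _
    simp only [algebraMap_int_eq, eq_intCast]
    push_cast
    exact Dvd.intro _ rfl
  · push Not at hα
    obtain ⟨i, hi⟩ := hα
    refine Dvd.dvd.mul_left ?_ _
    refine dvd_trans ?_ (Finset.dvd_prod_of_mem _ (Finset.mem_univ i))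
    rw [mul_pow]
    exact Dvd.dvd.mul_right (pow_dvd_pow _ hi) _

theorem shift_eval {n : ℕ} {R : Type} [CommRing R] (g : MvPolynomial (Fin n) ℤ) (y0 : Fin n → ℤ)
    (z : Fin n → R) : aeval (fun i => (y0 i : R) + z i) g =
      aeval z (aeval (fun i => (C (y0 i) + X i : MvPolynomial (Fin n) ℤ)) g) := by
  rw [← AlgHom.comp_apply]
  congr 1
  apply MvPolynomial.algHom_ext
  intro i
  simp

theorem subst_eval {n : ℕ} {R : Type} [CommRing R] (F : MvPolynomial (Fin (n + 1)) ℤ)
    (p : MvPolynomial (Fin n) ℤ) (y : Fin n → R) :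
    aeval y (aeval (cn p (fun i => (X i : MvPolynomial (Fin n) ℤ))) F) =
      aeval (cn (aeval y p) y) F := by
  rw [← AlgHom.comp_apply]
  congr 1
  apply MvPolynomial.algHom_ext
  intro i
  refine Fin.cases ?_ (fun j => ?_) i
  · simp
  · simp

/-- the main estimate at one point -/
theorem small_value {n K : ℕ} (a : (Fin n → Fin (K + 1)) → ℤ) (B H : ℕ)
    (ha : ∀ μ, (a μ).natAbs ≤ B) (z : Fin n → ℚ) (hz : ∀ i, hq (z i) ≤ H) :
    ∃ I : ℤ, (I : ℚ) = (∏ i, ((z i).den : ℚ) ^ K) * aeval z (PP a) ∧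
      I.natAbs ≤ (K + 1) ^ n * (B * H ^ (K * n)) := by
  refine ⟨∑ μ, a μ * ∏ i, ((z i).num ^ (μ i : ℕ) * ((z i).den : ℤ) ^ (K - (μ i : ℕ))), ?_, ?_⟩
  · rw [aeval_PP, Finset.mul_sum]
    push_cast
    refine Finset.sum_congr rfl fun μ _ => ?_
    rw [mul_left_comm, ← Finset.prod_mul_distrib]
    congr 1
    refine Finset.prod_congr rfl fun i _ => ?_
    have hd : ((z i).den : ℚ) ≠ 0 := by exact_mod_cast (z i).den_nz
    have h1 : ((z i).num : ℚ) = z i * (z i).den := (Rat.mul_den_eq_num _).symm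
    have h2 : ((z i).den : ℚ) ^ K = ((z i).den : ℚ) ^ (K - (μ i : ℕ)) *
        ((z i).den : ℚ) ^ (μ i : ℕ) := by
      rw [← pow_add]
      congr 1
      have := (μ i).2
      omega
    rw [h1, mul_pow, h2]
    ring
  · refine (Int.natAbs_sum_le _ _).trans ?_
    calc ∑ μ : Fin n → Fin (K + 1), (a μ * ∏ i, ((z i).num ^ (μ i : ℕ) *
          ((z i).den : ℤ) ^ (K - (μ i : ℕ)))).natAbs
        ≤ ∑ μ : Fin n → Fin (K + 1), B * H ^ (K * n) := by
          refine Finset.sum_le_sum fun μ _ => ?_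
          rw [Int.natAbs_mul]
          refine Nat.mul_le_mul (ha μ) ?_
          rw [show (∏ i, ((z i).num ^ (μ i : ℕ) * ((z i).den : ℤ) ^ (K - (μ i : ℕ)))).natAbs =
            ∏ i, ((z i).num ^ (μ i : ℕ) * ((z i).den : ℤ) ^ (K - (μ i : ℕ))).natAbs from
              map_prod Int.natAbsHom _ _]
          calc ∏ i, ((z i).num ^ (μ i : ℕ) * ((z i).den : ℤ) ^ (K - (μ i : ℕ))).natAbs
              ≤ ∏ i : Fin n, H ^ K := by
                refine Finset.prod_le_prod' fun i _ => ?_
                rw [Int.natAbs_mul, Int.natAbs_pow, Int.natAbs_pow, Int.natAbs_natCast]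
                have h1 : (z i).num.natAbs ≤ H := (le_max_left _ _).trans (hz i)
                have h2 : (z i).den ≤ H := (le_max_right _ _).trans (hz i)
                calc (z i).num.natAbs ^ (μ i : ℕ) * (z i).den ^ (K - (μ i : ℕ))
                    ≤ H ^ (μ i : ℕ) * H ^ (K - (μ i : ℕ)) :=
                      Nat.mul_le_mul (Nat.pow_le_pow_left h1 _) (Nat.pow_le_pow_left h2 _)
                  _ = H ^ K := by
                    rw [← pow_add]
                    congr 1
                    have := (μ i).2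
                    omega
            _ = H ^ (K * n) := by
              rw [Finset.prod_const, Finset.card_univ, Fintype.card_fin, pow_mul]
      _ = (K + 1) ^ n * (B * H ^ (K * n)) := by
        rw [Finset.sum_const, Finset.card_univ, Fintype.card_fun, Fintype.card_fin,
          Fintype.card_fin, smul_eq_mul]

/-- the polynomial in the parameter of the residue class -/
noncomputable def hh {n : ℕ} (p : MvPolynomial (Fin n) ℤ) (y0 : Fin n → ℤ)
    (F : MvPolynomial (Fin (n + 1)) ℤ) : MvPolynomial (Fin n) ℤ :=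
  aeval (fun i => (C (y0 i) + X i : MvPolynomial (Fin n) ℤ))
    (aeval (cn p (fun i => (X i : MvPolynomial (Fin n) ℤ))) F)

theorem hh_sub {n : ℕ} (p : MvPolynomial (Fin n) ℤ) (y0 : Fin n → ℤ)
    (F G : MvPolynomial (Fin (n + 1)) ℤ) : hh p y0 (F - G) = hh p y0 F - hh p y0 G := by
  unfold hh
  rw [map_sub, map_sub]

theorem value_congr {n : ℕ} {R : Type} [CommRing R] (q e : ℕ) (p : MvPolynomial (Fin n) ℤ)
    (y0 : Fin n → ℤ) (F : MvPolynomial (Fin (n + 1)) ℤ)
    (hF : ∀ α : Fin n →₀ ℕ, (∀ i, α i < e) → ((q : ℤ) ^ e) ∣ (hh p y0 F).coeff α)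
    (y t : Fin n → R) (hy : y = fun i => (y0 i : R) + (q : R) * t i) :
    ((q : R) ^ e) ∣ aeval (cn (aeval y p) y) F := by
  have h1 := congr_low (R := R) q e (hh p y0 F) hF t
  have h2 : aeval (fun i => (q : R) * t i) (hh p y0 F) = aeval (cn (aeval y p) y) F := by
    rw [← subst_eval, hy]
    unfold hh
    exact (shift_eval _ y0 _).symm
  rwa [h2] at h1

theorem coe_aeval {σ : Type} {q : ℕ} {hq : q.Prime} (z : σ → Zq q hq) (p : MvPolynomial σ ℤ) :
    ((aeval z p : Zq q hq) : ℚ) = aeval (fun i => (z i : ℚ)) p :=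
  comp_aeval_apply (R := ℤ) (φ := (Zq q hq).subtype.toIntAlgHom) z p

theorem det : S_det := by
  intro n A m hm
  classical
  set c : ℕ := (A + 1) * m with hc
  set K : ℕ := 4 ^ (n + 1) * (c * (n + 1)) ^ n with hK
  have hc1 : 1 ≤ c := Nat.mul_pos (by omega) (by omega)
  have hK1 : 1 ≤ K := Nat.mul_pos (by positivity) (Nat.pow_pos (Nat.mul_pos hc1 (by omega)))
  set e' : ℕ := c * (K * (n + 1)) with he'
  have he'1 : 1 ≤ e' := Nat.mul_pos hc1 (Nat.mul_pos hK1 (by omega))
  set e : ℕ := 4 * e' with he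
  refine ⟨K * (n + 1), 2 * e', ((K + 1) ^ (n + 1) + 1) ^ m, ?_⟩
  intro X hX q hq hqX hqX2 T y w hy hw hyq hwq hyy hp
  have hX1 : 1 ≤ X := le_trans (Nat.one_le_pow _ _ (by omega)) hX
  rcases isEmpty_or_nonempty T with hT | ⟨⟨s₀⟩⟩
  · refine ⟨1, one_ne_zero, by simp, fun μ => ?_, fun s => (hT.false s).elim⟩
    rw [coeff_one]
    split_ifs
    · simpa using Nat.one_le_pow _ _ hX1
    · simp
  have hq1 : 1 ≤ q := hq.one_lt.le
  have hqK : (K + 1) ^ (n + 1) < q := by
    by_contra hlt
    push Not at hlt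
    have h1 : q ^ m ≤ ((K + 1) ^ (n + 1)) ^ m := Nat.pow_le_pow_left hlt m
    have h2 : ((K + 1) ^ (n + 1)) ^ m < ((K + 1) ^ (n + 1) + 1) ^ m :=
      Nat.pow_lt_pow_left (by omega) (by omega)
    omega
  let R := Zq q hq
  let y' : T → Fin n → R := fun s i => ⟨y s i, hyq s i⟩
  let w' : T → R := fun s => ⟨w s, hwq s⟩
  -- the centre of the residue class
  choose y0 hy0 using fun i => exists_int (y' s₀ i)
  have hyy' : ∀ s i, (q : R) ∣ y' s i - y0 i := by
    intro s i
    have h1 : (q : R) ∣ y' s i - y' s₀ i := by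
      have h2 := hyy s s₀ i
      have h3 := (dv_iff (hq := hq) 1 (y' s i - y' s₀ i)).1 (by
        rw [pow_one]
        exact h2)
      rwa [pow_one] at h3
    have h4 := dvd_add h1 (hy0 i)
    simpa using h4
  choose t ht using hyy'
  have hyt : ∀ s, y' s = fun i => (y0 i : R) + (q : R) * t s i := by
    intro s
    funext i
    rw [← ht s i]
    ring
  obtain ⟨p, hp⟩ := hp e
  -- pigeonhole
  let Φ : ((Fin (n + 1) → Fin (K + 1)) → Fin (q ^ e' + 1)) → ((Fin n → Fin e) → ZMod (q ^ e)) :=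
    fun a α => (((hh p y0 (PP fun μ => ((a μ : ℕ) : ℤ))).coeff
      (Finsupp.equivFunOnFinite.symm fun i => (α i : ℕ)) : ℤ) : ZMod (q ^ e))
  have : NeZero (q ^ e) := ⟨(pow_pos hq.pos e).ne'⟩
  obtain ⟨a, a', hne, hΦ⟩ : ∃ a a', a ≠ a' ∧ Φ a = Φ a' := by
    apply Fintype.exists_ne_map_eq_of_card_lt
    rw [Fintype.card_fun, Fintype.card_fun, Fintype.card_fun, Fintype.card_fun, ZMod.card,
      Fintype.card_fin, Fintype.card_fin, Fintype.card_fin, Fintype.card_fin, Fintype.card_fin]
    calc (q ^ e) ^ e ^ n = q ^ (e ^ (n + 1)) := by rw [← pow_mul, ← pow_succ']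
      _ ≤ q ^ (e' * (K + 1) ^ (n + 1)) := by
        refine Nat.pow_le_pow_right hq1 ?_
        have h1 : e ^ (n + 1) = e' * (4 ^ (n + 1) * e' ^ n) := by
          rw [he, mul_pow, pow_succ e' n]
          ring
        rw [h1]
        refine Nat.mul_le_mul_left _ ?_
        rw [pow_succ (K + 1) n]
        have h2 : 4 ^ (n + 1) * e' ^ n = K * K ^ n := by
          have h3 : e' ^ n = (c * (n + 1)) ^ n * K ^ n := by
            rw [← mul_pow, he']
            congr 1
            ring
          rw [h3, ← mul_assoc, ← hK]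
        rw [h2, mul_comm]
        exact Nat.mul_le_mul (Nat.pow_le_pow_left (by omega) n) (by omega)
      _ = (q ^ e') ^ ((K + 1) ^ (n + 1)) := by rw [pow_mul]
      _ < (q ^ e' + 1) ^ ((K + 1) ^ (n + 1)) :=
        Nat.pow_lt_pow_left (by omega) (by positivity)
  set b : (Fin (n + 1) → Fin (K + 1)) → ℤ := fun μ => ((a μ : ℕ) : ℤ) - ((a' μ : ℕ) : ℤ) with hb
  have hbB : ∀ μ, (b μ).natAbs ≤ q ^ e' := by
    intro μ
    have h1 := (a μ).2
    have h2 := (a' μ).2
    rw [hb]
    simp only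
    omega
  have hPb : PP b = PP (fun μ => ((a μ : ℕ) : ℤ)) - PP (fun μ => ((a' μ : ℕ) : ℤ)) := by
    unfold PP
    rw [← Finset.sum_sub_distrib]
    refine Finset.sum_congr rfl fun μ _ => ?_
    rw [← map_sub]
  have hqe' : q ^ e' ≤ X ^ (2 * e') := by
    have h1 : q ≤ q ^ m := Nat.le_self_pow (by omega) q
    calc q ^ e' ≤ (X ^ 2) ^ e' := Nat.pow_le_pow_left (h1.trans hqX2) _
      _ = _ := (pow_mul _ _ _).symm
  refine ⟨PP b, ?_, ?_, ?_, ?_⟩
  · intro h0
    obtain ⟨μ, hμ⟩ := Function.ne_iff.1 hne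
    have h1 := coeff_PP b μ
    rw [h0, coeff_zero] at h1
    apply hμ
    apply Fin.ext
    have h2 : ((a μ : ℕ) : ℤ) - ((a' μ : ℕ) : ℤ) = 0 := h1.symm
    omega
  · refine Finset.sup_le fun ν hν => ?_
    obtain ⟨μ, rfl, -⟩ := coeff_PP_of b ν (mem_support_iff.1 hν)
    rw [Finsupp.sum_fintype _ _ (fun _ => rfl)]
    calc ∑ i, ex μ i ≤ ∑ i : Fin (n + 1), K := by
          refine Finset.sum_le_sum fun i _ => ?_
          rw [ex_apply]
          have := (μ i).2
          omega
      _ = K * (n + 1) := by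
        rw [Finset.sum_const, Finset.card_univ, Fintype.card_fin, smul_eq_mul, mul_comm]
  · intro ν
    by_cases h0 : (PP b).coeff ν = 0
    · rw [h0]
      simp
    · obtain ⟨μ, -, h1⟩ := coeff_PP_of b ν h0
      rw [h1]
      exact (hbB μ).trans hqe'
  · intro s
    -- divisibility by `q ^ e`
    have hdv : ((q : R) ^ e) ∣ aeval (cn (w' s) (y' s)) (PP b) := by
      have h1 : ((q : R) ^ e) ∣ aeval (cn (w' s) (y' s)) (PP b) -
          aeval (cn (aeval (y' s) p) (y' s)) (PP b) := by
        apply aeval_congr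
        intro i
        refine Fin.cases ?_ (fun j => ?_) i
        · simp only [Fin.cons_zero]
          rw [← dv_iff]
          have h2 := hp s
          have h3 : ((w' s - aeval (y' s) p : R) : ℚ) = w s - aeval (y s) p := by
            push_cast
            rw [coe_aeval]
          rw [h3]
          exact h2
        · simp
      have h2 : ((q : R) ^ e) ∣ aeval (cn (aeval (y' s) p) (y' s)) (PP b) := by
        refine value_congr q e p y0 (PP b) ?_ (y' s) (t s) (hyt s)
        intro α hα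
        rw [hPb, hh_sub, coeff_sub]
        have h4 := congrFun hΦ (fun i => ⟨α i, hα i⟩)
        simp only [Φ] at h4
        have h5 : (Finsupp.equivFunOnFinite.symm fun i => α i) = α := by
          ext i
          rfl
        rw [h5] at h4
        have h6 := (ZMod.intCast_eq_intCast_iff_dvd_sub _ _ _).1 h4.symm
        exact_mod_cast h6
      have := dvd_add h1 h2
      simpa using this
    -- size
    have hcn : ∀ i, Pool.Agent.Q256.FX.hq (cn (w s) (y s) i) ≤ X ^ A := by
      intro i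
      refine Fin.cases ?_ (fun j => ?_) i
      · exact hw s
      · exact hy s j
    obtain ⟨I, hI, hIle⟩ := small_value b (q ^ e') (X ^ A) hbB (cn (w s) (y s)) hcn
    have hden : (∏ i, (((cn (w s) (y s) i).den : ℕ) : ℚ) ^ K) ≠ 0 := by
      refine Finset.prod_ne_zero_iff.2 fun i _ => pow_ne_zero _ ?_
      exact_mod_cast (cn (w s) (y s) i).den_nz
    have hdvI : ((q : ℤ) ^ e) ∣ I := by
      have h1 : (I : R) = (∏ i, (((cn (w s) (y s) i).den : ℕ) : R) ^ K) *
          aeval (cn (w' s) (y' s)) (PP b) := by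
        apply Subtype.ext
        push_cast
        have hz : (fun i => ((cn (w' s) (y' s) i : R) : ℚ)) = cn (w s) (y s) := by
          funext i
          refine Fin.cases ?_ (fun j => ?_) i <;> rfl
        rw [coe_aeval, hz, hI]
      have h2 : ((q : R) ^ e) ∣ (I : R) := by
        rw [h1]
        exact Dvd.dvd.mul_left hdv _
      have h3 := (dv_iff (hq := hq) e (I : R)).2 h2
      unfold Dv at h3
      push_cast at h3
      simpa using h3
    have hIlt : I.natAbs < q ^ e := by
      refine lt_of_le_of_lt hIle ?_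
      have h1 : (X ^ A) ^ (K * (n + 1)) ≤ q ^ e' := by
        calc (X ^ A) ^ (K * (n + 1)) ≤ ((q ^ m) ^ A) ^ (K * (n + 1)) :=
              Nat.pow_le_pow_left (Nat.pow_le_pow_left hqX A) _
          _ = q ^ (m * A * (K * (n + 1))) := by
            rw [← pow_mul, ← pow_mul]
            congr 1
            ring
          _ ≤ q ^ e' := by
            refine Nat.pow_le_pow_right hq1 ?_
            rw [he', hc]
            refine Nat.mul_le_mul_right _ ?_
            nlinarith
      calc (K + 1) ^ (n + 1) * (q ^ e' * (X ^ A) ^ (K * (n + 1)))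
          ≤ (K + 1) ^ (n + 1) * (q ^ e' * q ^ e') :=
            Nat.mul_le_mul_left _ (Nat.mul_le_mul_left _ h1)
        _ < q * (q ^ e' * q ^ e') :=
            Nat.mul_lt_mul_of_pos_right hqK (Nat.mul_pos (pow_pos hq.pos _) (pow_pos hq.pos _))
        _ = q ^ (1 + (e' + e')) := by rw [pow_add, pow_add, pow_one]
        _ ≤ q ^ e := Nat.pow_le_pow_right hq1 (by omega)
    have hI0 : I = 0 := by
      by_contra h0
      have h1 := Int.le_of_dvd (Int.natAbs_pos.2 h0 |> fun h => by exact_mod_cast h)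
        (Int.dvd_natAbs.2 hdvI)
      have h2 : q ^ e ≤ I.natAbs := by exact_mod_cast h1
      omega
    rw [hI0, Int.cast_zero] at hI
    exact (mul_eq_zero.1 hI.symm).resolve_left hden

end Pool.Agent.Q256.FX.DT
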