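import Pool.Agent.Q256.FX.GnrD
import Pool.Agent.Q175.FX.Lg

/-!
# Project FX (helper256): few exceptional classes over number fields of bounded degree
-/

set_option autoImplicit false

open MvPolynomial Filter Topology

namespace Pool.Agent.Q256.FX

open Pool.Agent.H951R3.PB (wd ev rs dh cf)

/-- coordinates of height at most `H` with respect to the powers of `θ` -/
def Co (r : ℕ) (θ : ℂ) (H : ℕ) (z : ℂ) : Prop :=
  ∃ v : Fin r → ℚ, z = ∑ l, (v l : ℂ) * θ ^ (l : ℕ) ∧ ∀ l, hq (v l) ≤ H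

theorem Co.mono {r : ℕ} {θ : ℂ} {H H' : ℕ} {z : ℂ} (h : Co r θ H z) (hH : H ≤ H') : Co r θ H' z := by
  obtain ⟨v, h1, h2⟩ := h
  exact ⟨v, h1, fun l => (h2 l).trans hH⟩

/-- the data of an exceptional map -/
structure Dt (d D A N X : ℕ) (g : FC) (r : ℕ) (θ : ℂ) (u : Fin 2 → ℂ) : Prop where
  r1 : 1 ≤ r
  rD : r ≤ D
  hom : ∀ i, (g i).IsHomogeneous d
  rsn : rs g d ≠ 0
  ind : ∀ v : Fin r → ℚ, ∑ l, (v l : ℂ) * θ ^ (l : ℕ) = 0 → v = 0
  pow : Co r θ (X ^ A) (θ ^ r)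
  cfs : ∀ i μ, Co r θ (X ^ A) ((g i).coeff μ)
  pt : ∀ l, Co r θ (X ^ A) (u l)
  wdn : ∀ i j, i < j → j ≤ N → wd ((ev g)^[i] u) ((ev g)^[j] u) ≠ 0
  orb : ∀ j, d ^ j ≤ N → (ev g)^[j] u 1 ≠ 0 →
    Co r θ (X ^ A) ((ev g)^[j] u 0 / (ev g)^[j] u 1)

theorem Dt.mono {d D A N X N' X' r : ℕ} {g : FC} {θ : ℂ} {u : Fin 2 → ℂ}
    (h : Dt d D A N X g r θ u) (hN : N' ≤ N) (hX : X ≤ X') : Dt d D A N' X' g r θ u where
  r1 := h.r1
  rD := h.rD
  hom := h.hom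
  rsn := h.rsn
  ind := h.ind
  pow := h.pow.mono (Nat.pow_le_pow_left hX A)
  cfs := fun i μ => (h.cfs i μ).mono (Nat.pow_le_pow_left hX A)
  pt := fun l => (h.pt l).mono (Nat.pow_le_pow_left hX A)
  wdn := fun i j hij hj => h.wdn i j hij (hj.trans hN)
  orb := fun j hj h1 => (h.orb j (hj.trans hN) h1).mono (Nat.pow_le_pow_left hX A)

theorem contraD (habs : S_absD) (halg : S_alg) (hbn : S_bakern) (hcj : S_conj)
    (d : ℕ) (hd : 2 ≤ d) (D A a : ℕ) (ha : 1 ≤ a)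
    (X : ℕ → ℕ) (hX2 : ∀ N, 2 ≤ X N) (hXt : Tendsto X atTop atTop)
    (𝒢 : ℕ → Finset FC) (hcard : ∀ N, (N + 1) * X N < (𝒢 N).card ^ a)
    (hrep : ∀ N, ∀ F ∈ 𝒢 N, ∀ G ∈ 𝒢 N, CJC F G → F = G)
    (hdat : ∀ N, ∀ F ∈ 𝒢 N, ∃ r θ u, Dt d D A (N + 1) (X N) F r θ u) : False := by
  classical
  have hex : ∀ ω : ℕ × FC, ∃ (r : ℕ) (θ : ℂ) (u : Fin 2 → ℂ),
      ω.2 ∈ 𝒢 ω.1 → Dt d D A (ω.1 + 1) (X ω.1) ω.2 r θ u := by
    intro ω
    by_cases h : ω.2 ∈ 𝒢 ω.1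
    · obtain ⟨r, θ, u, h1⟩ := hdat ω.1 ω.2 h
      exact ⟨r, θ, u, fun _ => h1⟩
    · exact ⟨0, 0, 0, fun h' => absurd h' h⟩
  choose r θ u hdt using hex
  set T : Set (ℕ × FC) := {ω | ω.2 ∈ 𝒢 ω.1} with hT
  have hfib : ∀ N, {s | (N, s) ∈ T} = (𝒢 N : Set FC) := fun N => rfl
  set 𝒰 : Ultrafilter ℕ := Filter.hyperfilter ℕ with h𝒰
  have h𝒰le : (𝒰 : Filter ℕ) ≤ atTop := Nat.hyperfilter_le_atTop
  have hns : ¬ Small 𝒰 X a T := by
    rintro ⟨C, hC⟩
    obtain ⟨N, hN, hNC⟩ := (hC.and (h𝒰le (eventually_ge_atTop C))).exists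
    have h1 := hN.2
    rw [hfib, Set.ncard_coe_finset] at h1
    have h2 := hcard N
    have h3 : C * X N ≤ (N + 1) * X N := Nat.mul_le_mul_right _ (by omega)
    omega
  -- the degree is constant
  obtain ⟨ρ, hρ⟩ : ∃ ρ : ℕ, ¬ Small 𝒰 X a {ω | ω ∈ T ∧ r ω = ρ} := by
    by_contra hcon
    push Not at hcon
    have h1 : ∀ n : ℕ, Small 𝒰 X a {ω | ω ∈ T ∧ r ω ≤ n} := by
      intro n
      induction n with
      | zero =>
        refine Pool.Agent.Q175.FX.Small.mono (hcon 0) ?_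
        rintro ω ⟨h1, h2⟩
        exact ⟨h1, by omega⟩
      | succ n ih =>
        refine Pool.Agent.Q175.FX.Small.mono (Pool.Agent.Q175.FX.Small.union ih (hcon (n + 1))) ?_
        rintro ω ⟨h1, h2⟩
        rcases Nat.lt_or_ge (r ω) (n + 1) with h3 | h3
        · exact Or.inl ⟨h1, by omega⟩
        · exact Or.inr ⟨h1, by omega⟩
    refine hns (Pool.Agent.Q175.FX.Small.mono (h1 D) ?_)
    intro ω hω
    exact ⟨hω, (hdt ω hω).rD⟩
  set T' : Set (ℕ × FC) := {ω | ω ∈ T ∧ r ω = ρ} with hT'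
  have hTfin : ∀ N, {s | (N, s) ∈ T'}.Finite := fun N =>
    (Finset.finite_toSet (𝒢 N)).subset fun s hs => hs.1
  have hρ1 : 1 ≤ ρ := by
    by_contra h0
    apply hρ
    have h1 : T' = ∅ := by
      rw [Set.eq_empty_iff_forall_notMem]
      rintro ω ⟨h1, h2⟩
      have := (hdt ω h1).r1
      omega
    rw [h1]
    refine ⟨0, Eventually.of_forall fun N => ?_⟩
    simp
    omega
  have hdt' : ∀ ω ∈ T', Dt d D A (ω.1 + 1) (X ω.1) ω.2 ρ (θ ω) (u ω) := by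
    rintro ω ⟨h1, h2⟩
    have := hdt ω h1
    rwa [h2] at this
  obtain ⟨w, hTw, hsub, K, _, _, ψ, n, y, z, t, hFG, hind, hyalg, hz, hθt, hstar⟩ :=
    habs FC 𝒰 X (hXt.mono_left h𝒰le) hX2 (Lam d) ρ θ (zzC d u) T' A a ha hρ1 hTfin
      (fun ω hω => (hdt' ω hω).ind) (fun ω hω => (hdt' ω hω).pow)
      (by
        intro ω hω l
        rcases l with ⟨i, μ⟩ | l
        · exact (hdt' ω hω).cfs i μ.1
        · exact (hdt' ω hω).pt l) hρ
  have hTae : ∀ᶠ ω in (w.W : Filter (ℕ × FC)), ω ∈ T' := hTw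
  have hNae : ∀ j : ℕ, ∀ᶠ ω in (w.W : Filter (ℕ × FC)), j ≤ ω.1 := fun j =>
    w.tendsto (h𝒰le (eventually_ge_atTop j))
  have : CharZero (kf 𝒰 X) := charZero_kf 𝒰 X
  have : CharZero K := by
    have : CharZero (RR w ℂ) := charZero_germC (w.W : Filter (ℕ × FC))
    exact (ψ : K →+* RR w ℂ).charZero
  set f := fgen d z with hf
  have hfhom : ∀ i, (f i).IsHomogeneous d := fgen_hom d z
  have hmpf : mp (ψ : K →+* RR w ℂ) f = mp (gh w ℂ) (fhatC d) := by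
    funext i
    unfold mp
    rw [hf]
    unfold fgen fhatC
    rw [map_sum, map_sum]
    refine Finset.sum_congr rfl fun μ _ => ?_
    rw [MvPolynomial.map_monomial, MvPolynomial.map_monomial]
    congr 1
    exact hz _
  set p0 : Fin 2 → K := fun l => z (.inr l) with hp0
  have hp0ψ : (ψ : K →+* RR w ℂ) ∘ p0 = gh w ℂ ∘ uhatC u := by
    funext l
    exact hz _
  set P : ℕ → Fin 2 → K := fun j => (ev f)^[j] p0 with hP
  have hPψ : ∀ j, (ψ : K →+* RR w ℂ) ∘ P j = gh w ℂ ∘ orbC d u j := by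
    intro j
    have h1 := iter_map (ψ : K →+* RR w ℂ) f p0 j
    have h2 := iter_map (gh w ℂ) (fhatC d) (uhatC u) j
    rw [hmpf, hp0ψ, h2] at h1
    exact h1.symm
  have hPψ' : ∀ j i, ψ (P j i) = gm w (orbC d u j i) := fun j i => congrFun (hPψ j) i
  have hrs : rs f d ≠ 0 := by
    have h1 := rsR_map (ψ : K →+* RR w ℂ) f d
    rw [hmpf, rsR_map] at h1
    have h2 : gm w (rsR (fhatC d) d) ≠ 0 := by
      apply ne_gm
      filter_upwards [hTae] with ω hω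
      rw [at_rsC ω (hdt' ω hω).hom]
      exact (hdt' ω hω).rsn
    intro h0
    apply h2
    rw [← gh_apply, h1]
    show ψ (rs f d) = 0
    rw [h0, map_zero]
  have hwd : ∀ i j, i < j → wd (P i) (P j) ≠ 0 := by
    intro i j hij h0
    have h1 := wdR_map (ψ : K →+* RR w ℂ) (P i) (P j)
    rw [hPψ, hPψ, wdR_map] at h1
    have h2 : gm w (wdR (orbC d u i) (orbC d u j)) ≠ 0 := by
      apply ne_gm
      filter_upwards [hTae, hNae j] with ω hω hj
      rw [at_wdC u i j ω (hdt' ω hω).hom]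
      exact (hdt' ω hω).wdn i j hij (by omega)
    apply h2
    rw [← gh_apply, h1]
    show ψ (wd (P i) (P j)) = 0
    rw [h0, map_zero]
  have hwd' : ∀ i j, i ≠ j → wd (P i) (P j) ≠ 0 := by
    intro i j hij
    rcases lt_or_gt_of_ne hij with h | h
    · exact hwd i j h
    · intro h0
      apply hwd j i h
      have : wd (P j) (P i) = - wd (P i) (P j) := by
        simp only [wd]
        ring
      rw [this, h0, neg_zero]
  have hPs : ∀ j, ∃ c : K, c ≠ 0 ∧ ev f (P j) = c • P (j + 1) := fun j =>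
    ⟨1, one_ne_zero, by rw [one_smul, hP]; simp only; rw [Function.iterate_succ_apply']⟩
  -- bounded degrees
  obtain ⟨b, hb⟩ := hstar A
  have hrel : ∀ j, P j 1 ≠ 0 → ∃ c : Fin ρ → K, P j 0 / P j 1 = ∑ l, c l * t ^ (l : ℕ) ∧
      ∀ l, ∃ F : MvPolynomial (Fin (n + 1)) (kf 𝒰 X), F ≠ 0 ∧ F.totalDegree ≤ b ∧
        aeval (cn (c l) y) F = 0 := by
    intro j hj
    refine hb (fun ω => orbC d u j 0 ω / orbC d u j 1 ω) _ ?_ ?_
    · rw [map_div₀, hPψ', hPψ']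
      rfl
    · have h1 : ∀ᶠ ω in (w.W : Filter (ℕ × FC)), orbC d u j 1 ω ≠ 0 := by
        apply gm_ne w
        rw [← hPψ']
        exact (map_ne_zero ψ).2 hj
      filter_upwards [hTae, hNae (d ^ j), h1] with ω hω hN h1
      have h2 := (hdt' ω hω).orb j (by omega)
      rw [← at_orbC u j ω (hdt' ω hω).hom] at h2
      exact h2 h1
  have hcross := hbn (kf 𝒰 X) K hFG n y hind hyalg d hd f hfhom hrs P hPs hwd' ρ b
    (fun l => t ^ (l : ℕ)) hrel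
  -- conjugation
  obtain ⟨M, g, c, hM, hc, hghom, hgE, hconj⟩ := hcj K (algebraicClosure (kf 𝒰 X) K).toSubfield d
    (by omega) f hfhom hrs P hPs hwd' (by
      intro j hj
      exact mem_algebraicClosure_iff.2 (hcross 0 1 2 j (by omega) (by omega) (by omega) (by omega)
        (by omega) (by omega)))
  have hgb : ∀ i μ, ∃ b' : ℕ → ℂ, (ψ : K →+* RR w ℂ) ((g i).coeff μ) =
      gm w (fun ω => b' ω.1) := by
    intro i μ
    have h1 : IsAlgebraic (kf 𝒰 X) ((g i).coeff μ) := mem_algebraicClosure_iff.1 (hgE i μ)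
    have h2 : IsAlgebraic (kf 𝒰 X) (ψ ((g i).coeff μ)) := h1.algHom ψ
    obtain ⟨r, hr⟩ : ∃ r : ℕ × FC → ℂ, gm w r = ψ ((g i).coeff μ) := by
      generalize ψ ((g i).coeff μ) = x
      induction x using Germ.inductionOn with | _ r => exact ⟨r, rfl⟩
    rw [← hr] at h2
    obtain ⟨b', hb'⟩ := halg FC 𝒰 X w ℂ r h2
    exact ⟨b', by rw [← hb', hr]; rfl⟩
  obtain ⟨G, hG⟩ := conj_aeC w d K (ψ : K →+* RR w ℂ) f hmpf M g c hM hc hgb hconj
  have hB : {ω : ℕ × FC | ω ∈ T' ∧ CJC ω.2 (G ω.1)} ∈ w.W := by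
    have h1 : ∀ᶠ ω in (w.W : Filter (ℕ × FC)), ω ∈ T' ∧ CJC ω.2 (G ω.1) := by
      filter_upwards [hTae, hG] with ω h1 h2
      exact ⟨h1, h2 (hdt' ω h1).hom⟩
    exact h1
  refine hsub _ ?_ hB
  intro N F hF F' hF'
  exact hrep N F hF.1.1 F' hF'.1.1 (hF.2.trans' hF'.2.symm')

/-- many pairwise inequivalent elements or few representatives -/
theorem big_or_reps {α : Type} (r : α → α → Prop) (hsymm : ∀ a b, r a b → r b a)
    (hrefl : ∀ a, r a a) (S : Set α) (a M : ℕ) (ha : 1 ≤ a) :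
    (∃ T : Finset α, (T : Set α) ⊆ S ∧ M < T.card ^ a ∧ ∀ x ∈ T, ∀ y ∈ T, r x y → x = y) ∨
    ∃ T : Finset α, (T : Set α) ⊆ S ∧ T.card ^ a ≤ M ∧ ∀ x ∈ S, ∃ y ∈ T, r x y := by
  classical
  by_contra hcon
  push Not at hcon
  obtain ⟨h1, h2⟩ := hcon
  have key : ∀ m : ℕ, ∃ T : Finset α, (T : Set α) ⊆ S ∧ T.card = m ∧
      ∀ x ∈ T, ∀ y ∈ T, r x y → x = y := by
    intro m
    induction m with
    | zero => exact ⟨∅, by simp, rfl, by simp⟩
    | succ m ih =>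
      obtain ⟨T, hT, hm, hp⟩ := ih
      have h3 : T.card ^ a ≤ M := by
        by_contra h3
        obtain ⟨x, hx, y, hy, hxy, hne⟩ := h1 T hT (by omega)
        exact hne (hp x hx y hy hxy)
      obtain ⟨x, hx, hno⟩ := h2 T hT h3
      have hxT : x ∉ T := fun h => hno x h (hrefl x)
      refine ⟨insert x T, ?_, by rw [Finset.card_insert_of_notMem hxT, hm], ?_⟩
      · rw [Finset.coe_insert]
        exact Set.insert_subset hx hT
      · intro b hb c hc hbc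
        rw [Finset.mem_insert] at hb hc
        rcases hb with rfl | hb <;> rcases hc with rfl | hc
        · rfl
        · exact absurd hbc (hno c hc)
        · exact absurd (hsymm _ _ hbc) (hno b hb)
        · exact hp b hb c hc hbc
  obtain ⟨T, hT, hm, hp⟩ := key (M + 1)
  obtain ⟨x, hx, y, hy, hxy, hne⟩ := h1 T hT (by
    rw [hm]
    calc M < M + 1 := by omega
      _ = (M + 1) ^ 1 := (pow_one _).symm
      _ ≤ _ := Nat.pow_le_pow_right (by omega) ha)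
  exact hne (hp x hx y hy hxy)

/-- The maps with exceptional data lie in few conjugacy classes. -/
theorem fewD (habs : S_absD) (halg : S_alg) (hbn : S_bakern) (hcj : S_conj)
    (d : ℕ) (hd : 2 ≤ d) (D A a : ℕ) (ha : 1 ≤ a) : ∃ N : ℕ, 1 ≤ N ∧ ∀ X : ℕ, 2 ≤ X →
    ∃ 𝒢 : Finset FC, 𝒢.card ^ a ≤ N * X ∧
      ∀ F, (∃ r θ u, Dt d D A N X F r θ u) → ∃ G ∈ 𝒢, CJC F G := by
  classical
  by_contra hcon
  push Not at hcon
  have h1 : ∀ N : ℕ, ∃ X : ℕ, 2 ≤ X ∧ N ≤ X ∧ ∃ 𝒢 : Finset FC,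
      (N + 1) * X < 𝒢.card ^ a ∧ (∀ F ∈ 𝒢, ∀ G ∈ 𝒢, CJC F G → F = G) ∧
      ∀ F ∈ 𝒢, ∃ r θ u, Dt d D A (N + 1) X F r θ u := by
    intro N
    obtain ⟨X, hX, h⟩ := hcon ((N + 1) * (N + 2)) (Nat.mul_pos (by omega) (by omega))
    refine ⟨max X (N + 2), le_trans hX (le_max_left _ _), le_trans (by omega) (le_max_right _ _),
      ?_⟩
    rcases big_or_reps (fun F G : FC => CJC F G) (fun _ _ h => h.symm') (fun _ => CJC.refl' _)
      {F | ∃ r θ u, Dt d D A ((N + 1) * (N + 2)) X F r θ u} a ((N + 1) * (N + 2) * X) ha with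
      ⟨𝒢, h2, h3, h4⟩ | ⟨𝒢, h2, h3, h4⟩
    · refine ⟨𝒢, lt_of_le_of_lt ?_ h3, h4, fun F hF => ?_⟩
      · rcases le_total X (N + 2) with h5 | h5
        · rw [max_eq_right h5]
          exact Nat.le_mul_of_pos_right _ (by omega)
        · rw [max_eq_left h5]
          refine Nat.mul_le_mul_right X ?_
          exact Nat.le_mul_of_pos_right _ (by omega)
      · obtain ⟨r, θ, u, h5⟩ := h2 hF
        exact ⟨r, θ, u, h5.mono (Nat.le_mul_of_pos_right _ (by omega)) (le_max_left _ _)⟩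
    · obtain ⟨F, hF, hno⟩ := h 𝒢 h3
      obtain ⟨G, hG, hFG⟩ := h4 F hF
      exact absurd hFG (hno G hG)
  choose X hX2 hXN 𝒢 hcard hrep hdat using h1
  have hXt : Tendsto X atTop atTop := tendsto_atTop_mono hXN tendsto_id
  exact contraD habs halg hbn hcj d hd D A a ha X hX2 hXt 𝒢 hcard hrep hdat

end Pool.Agent.Q256.FX
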