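import Pool.Agent.Q256.FX.Pts

/-!
# Project FX (helper256): the contradiction
-/

set_option autoImplicit false

open MvPolynomial Filter Topology

namespace Pool.Agent.Q256.FX

open Pool.Agent.H951R3.PB (wd ev rs dh)

section alg

open IntermediateField

theorem alg_down {k K R : Type} [Field k] [Field K] [Field R] [Algebra k K] [Algebra k R]
    (f : K →ₐ[k] R) (S : Set K) (c : K)
    (h : IsAlgebraic (IntermediateField.adjoin k (f '' S)) (f c)) :
    IsAlgebraic (IntermediateField.adjoin k S) c := by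
  rw [← IntermediateField.adjoin_map] at h
  refine IsAlgebraic.of_ringHom_of_comp_eq (R := IntermediateField.adjoin k S)
    (S := (IntermediateField.adjoin k S).map f) ((IntermediateField.adjoin k S).equivMap f)
    (f : K →+* R) h (AlgEquiv.surjective _) f.injective ?_
  ext x
  rfl

theorem alg_all {k R : Type} [Field k] [Field R] [Algebra k R] (S T : Set R) (hST : T ⊆ adjoin k S)
    (h : ∀ z ∈ S, IsAlgebraic (adjoin k T) z) (c : adjoin k S) :
    IsAlgebraic (adjoin k ((Subtype.val : adjoin k S → R) ⁻¹' T)) c := by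
  have key : ∀ z ∈ adjoin k S, IsAlgebraic (adjoin k T) z := by
    intro z hz
    induction hz using IntermediateField.adjoin_induction with
    | mem x hx => exact h x hx
    | algebraMap x =>
      have : algebraMap k R x = algebraMap (adjoin k T) R (algebraMap k (adjoin k T) x) := rfl
      rw [this]
      exact isAlgebraic_algebraMap _
    | add x y _ _ hx hy => exact hx.add hy
    | inv x _ hx => exact hx.inv
    | mul x y _ _ hx hy => exact hx.mul hy
  apply alg_down (adjoin k S).val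
  have e : (adjoin k S).val '' (Subtype.val ⁻¹' T) = T := by
    ext z
    constructor
    · rintro ⟨x, hx, rfl⟩
      exact hx
    · intro hz
      exact ⟨⟨z, hST hz⟩, hz, rfl⟩
  rw [e]
  exact key _ c.2

end alg

theorem charZero_germ {α : Type} (l : Filter α) [l.NeBot] : CharZero (Germ l ℚ) := by
  refine ⟨fun m n h => ?_⟩
  have h1 : ((fun _ => (m : ℚ)) : α → ℚ) =ᶠ[l] fun _ => (n : ℚ) := Germ.coe_eq.1 h
  obtain ⟨x, hx⟩ := h1.exists
  have h2 : (m : ℚ) = n := hx
  exact_mod_cast h2

theorem charZero_kf (𝒰 : Ultrafilter ℕ) (X : ℕ → ℕ) : CharZero (kf 𝒰 X) := by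
  have := charZero_germ (𝒰 : Filter ℕ)
  exact (algebraMap (kf 𝒰 X) (Germ (𝒰 : Filter ℕ) ℚ)).charZero

/-- the linear substitution -/
noncomputable def lin {R : Type} [CommRing R] (a : Fin 2 → Fin 2 → R) (l : Fin 2) :
    MvPolynomial (Fin 2) R := ∑ j, C (a l j) * X j

theorem map_lin {R S : Type} [CommRing R] [CommRing S] (φ : R →+* S) (a : Fin 2 → Fin 2 → R)
    (l : Fin 2) : (lin a l).map φ = lin (fun i j => φ (a i j)) l := by
  simp [lin]

theorem eval_lin {R : Type} [CommRing R] (a : Fin 2 → Fin 2 → R) (v : Fin 2 → R)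
    (p : MvPolynomial (Fin 2) R) : eval v (bind₁ (lin a) p) =
      eval ((Matrix.of a).mulVec v) p := by
  have h : (fun l => eval v (lin a l)) = (Matrix.of a).mulVec v := by
    funext l
    simp [lin, Matrix.mulVec, dotProduct]
  rw [MvPolynomial.eval, MvPolynomial.eval₂Hom_bind₁]
  rw [← h]
  rfl

/-- the generic map is conjugate to a map with coefficients depending only on `N` -/
theorem conj_ae {𝒰 : Ultrafilter ℕ} (w : UF 𝒰 Fm) (d : ℕ) (K : Type) [Field K] [CharZero K]
    (ψ : K →+* RR w ℚ) (f : Fin 2 → MvPolynomial (Fin 2) K)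
    (hf : mp ψ f = mp (gh w ℚ) (fhat d))
    (A : Matrix (Fin 2) (Fin 2) K) (g : Fin 2 → MvPolynomial (Fin 2) K)
    (c : K) (hA : A.det ≠ 0) (hc : c ≠ 0)
    (hg : ∀ i μ, ∃ b : ℕ → ℚ, ψ ((g i).coeff μ) = gm w (fun ω => b ω.1))
    (h : ∀ v : Fin 2 → K, ev f (A.mulVec v) = c • A.mulVec (ev g v)) :
    ∃ G : ℕ → Fin 2 → MvPolynomial (Fin 2) ℚ, ∀ᶠ ω in (w.W : Filter (ℕ × Fm)),
      (∀ i, (ω.2 i).IsHomogeneous d) → CJ (fq ω.2) (G ω.1) := by
  classical
  -- representatives of `A` and `c`
  have hrep : ∀ x : RR w ℚ, ∃ a : ℕ × Fm → ℚ, gm w a = x := by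
    intro x
    induction x using Germ.inductionOn with | _ a => exact ⟨a, rfl⟩
  choose a ha using fun i j => hrep (ψ (A i j))
  obtain ⟨e, he⟩ := hrep (ψ c)
  choose b hb using hg
  let ghat : Fin 2 → MvPolynomial (Fin 2) (ℕ × Fm → ℚ) := fun i =>
    ∑ μ ∈ (g i).support, monomial μ (fun ω => b i μ ω.1)
  let G : ℕ → Fin 2 → MvPolynomial (Fin 2) ℚ := fun N i =>
    ∑ μ ∈ (g i).support, monomial μ (b i μ N)
  have hghat : ∀ i, (ghat i).map (gh w ℚ) = (g i).map ψ := by
    intro i
    have h1 : (g i).map ψ = ∑ μ ∈ (g i).support, monomial μ (ψ ((g i).coeff μ)) := by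
      conv_lhs => rw [(g i).as_sum]
      rw [map_sum]
      refine Finset.sum_congr rfl fun μ _ => ?_
      rw [MvPolynomial.map_monomial]
    rw [h1]
    simp only [ghat]
    rw [map_sum]
    refine Finset.sum_congr rfl fun μ _ => ?_
    rw [MvPolynomial.map_monomial, hb, gh_apply]
  have hatG : ∀ (ω : ℕ × Fm) i, (ghat i).map (at' ω) = G ω.1 i := by
    intro ω i
    simp only [ghat, G]
    rw [map_sum]
    refine Finset.sum_congr rfl fun μ _ => ?_
    rw [MvPolynomial.map_monomial]
    rfl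
  -- the polynomial identity over `K`
  have hpoly : ∀ i, bind₁ (lin fun l j => A l j) (f i) = C c * ∑ j, C (A i j) * g j := by
    intro i
    have : Infinite K := inferInstance
    apply MvPolynomial.funext
    intro v
    have h1 := congrFun (h v) i
    rw [eval_lin]
    rw [show eval ((Matrix.of fun l j => A l j).mulVec v) (f i) = ev f (A.mulVec v) i from rfl, h1]
    simp only [Matrix.mulVec, dotProduct, Pi.smul_apply, smul_eq_mul, map_mul, map_sum,
      MvPolynomial.eval_C, ev]
  -- over the ring of functions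
  let L : Fin 2 → MvPolynomial (Fin 2) (ℕ × Fm → ℚ) := fun i =>
    bind₁ (lin a) (fhat d i) - C e * ∑ j, C (a i j) * ghat j
  have hL : ∀ {S : Type} [CommRing S] (φ : (ℕ × Fm → ℚ) →+* S) (i : Fin 2), (L i).map φ =
      bind₁ (lin fun l j => φ (a l j)) ((fhat d i).map φ) -
        C (φ e) * ∑ j, C (φ (a i j)) * (ghat j).map φ := by
    intro S _ φ i
    simp only [L]
    rw [map_sub, MvPolynomial.map_bind₁, map_mul, map_sum, MvPolynomial.map_C]
    simp only [map_mul, MvPolynomial.map_C, map_lin]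
  have hL0 : ∀ i, (L i).map (gh w ℚ) = 0 := by
    intro i
    have h1 := congrArg (fun p => MvPolynomial.map ψ p) (hpoly i)
    rw [MvPolynomial.map_bind₁, map_mul, map_sum, MvPolynomial.map_C] at h1
    simp only [map_mul, MvPolynomial.map_C, map_lin] at h1
    rw [hL, sub_eq_zero]
    have e1 : (fhat d i).map (gh w ℚ) = (f i).map ψ := (congrFun hf i).symm
    have e3 : gh w ℚ e = ψ c := he
    have e4 : ∀ l j, gh w ℚ (a l j) = ψ (A l j) := fun l j => ha l j
    simp only [e1, hghat, e3, e4]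
    exact h1
  have hae : ∀ᶠ ω in (w.W : Filter (ℕ × Fm)), ∀ i, (L i).map (at' ω) = 0 := by
    rw [eventually_all]
    exact fun i => map_zero_ae w (L i) (hL0 i)
  have hdet : ∀ᶠ ω in (w.W : Filter (ℕ × Fm)),
      (Matrix.of fun i j => a i j ω : Matrix (Fin 2) (Fin 2) ℚ).det ≠ 0 := by
    have h1 : gm w (fun ω => a 0 0 ω * a 1 1 ω - a 0 1 ω * a 1 0 ω) ≠ 0 := by
      have h2 : gm w (fun ω => a 0 0 ω * a 1 1 ω - a 0 1 ω * a 1 0 ω) = ψ A.det := by
        rw [Matrix.det_fin_two, map_sub, map_mul, map_mul, ← ha, ← ha, ← ha, ← ha]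
        rfl
      rw [h2]
      exact (map_ne_zero ψ).2 hA
    filter_upwards [gm_ne w h1] with ω hω
    rw [Matrix.det_fin_two]
    exact hω
  have hce : ∀ᶠ ω in (w.W : Filter (ℕ × Fm)), e ω ≠ 0 := by
    apply gm_ne w
    rw [he]
    exact (map_ne_zero ψ).2 hc
  refine ⟨G, ?_⟩
  filter_upwards [hae, hdet, hce] with ω h1 h2 h3 h4
  refine ⟨Matrix.of fun i j => a i j ω, e ω, h2, h3, fun v => ?_⟩
  funext i
  have h5 := h1 i
  rw [hL, sub_eq_zero] at h5
  have e1 : (fhat d i).map (at' ω) = fq ω.2 i := congrFun (at_fhat ω h4) i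
  simp only [e1, hatG] at h5
  have h6 := congrArg (MvPolynomial.eval v) h5
  rw [eval_lin] at h6
  have e5 : (Matrix.of fun l j => at' ω (a l j) : Matrix (Fin 2) (Fin 2) ℚ) =
      Matrix.of fun i j => a i j ω := rfl
  rw [e5] at h6
  show MvPolynomial.eval _ (fq ω.2 i) = _
  rw [h6]
  simp only [Matrix.mulVec, dotProduct, Pi.smul_apply, smul_eq_mul, map_mul, map_sum,
    MvPolynomial.eval_C, ev, Matrix.of_apply]
  rfl

end Pool.Agent.Q256.FX
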