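import Pool.Agent.Q256.FX.Stm

/-!
# Project FX (helper256): naturality, functions and germs, conjugacy
-/

set_option autoImplicit false

open MvPolynomial Filter Topology

namespace Pool.Agent.Q256.FX

open Pool.Agent.H951R3.PB (wd ev rs dh)

section nat

variable {R S : Type} [CommRing R] [CommRing S]

/-- evaluation of a pair of forms over a ring -/
noncomputable def evR (f : Fin 2 → MvPolynomial (Fin 2) R) (x : Fin 2 → R) : Fin 2 → R :=
  fun i => MvPolynomial.eval x (f i)

/-- dehomogenisation over a ring -/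
noncomputable def dhR (p : MvPolynomial (Fin 2) R) : Polynomial R :=
  MvPolynomial.aeval ![Polynomial.X, 1] p

/-- resultant over a ring -/
noncomputable def rsR (f : Fin 2 → MvPolynomial (Fin 2) R) (d : ℕ) : R :=
  Polynomial.resultant (dhR (f 0)) (dhR (f 1)) d d

/-- the wedge product over a ring -/
def wdR (x y : Fin 2 → R) : R := x 0 * y 1 - x 1 * y 0

/-- coefficientwise image -/
noncomputable def mp (φ : R →+* S) (f : Fin 2 → MvPolynomial (Fin 2) R) :
    Fin 2 → MvPolynomial (Fin 2) S := fun i => (f i).map φ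

theorem evR_map (φ : R →+* S) (f : Fin 2 → MvPolynomial (Fin 2) R) (x : Fin 2 → R) :
    evR (mp φ f) (φ ∘ x) = φ ∘ evR f x := by
  funext i
  simp only [evR, mp, Function.comp]
  rw [MvPolynomial.eval_map, ← MvPolynomial.coe_eval₂Hom, ← MvPolynomial.eval₂_id (f i),
    MvPolynomial.eval₂_comp_left φ (RingHom.id R) x (f i)]
  simp [Function.comp_def]

theorem iter_map (φ : R →+* S) (f : Fin 2 → MvPolynomial (Fin 2) R) (x : Fin 2 → R) (j : ℕ) :
    (evR (mp φ f))^[j] (φ ∘ x) = φ ∘ (evR f)^[j] x := by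
  induction j with
  | zero => rfl
  | succ j ih => rw [Function.iterate_succ_apply', Function.iterate_succ_apply', ih, evR_map]

theorem dhR_map (φ : R →+* S) (p : MvPolynomial (Fin 2) R) :
    dhR (p.map φ) = (dhR p).map φ := by
  unfold dhR
  rw [MvPolynomial.aeval_def, MvPolynomial.aeval_def, MvPolynomial.eval₂_map]
  have h := MvPolynomial.eval₂_comp_left (Polynomial.mapRingHom φ)
    (algebraMap R (Polynomial R)) (![Polynomial.X, 1] : Fin 2 → Polynomial R) p
  rw [Polynomial.coe_mapRingHom] at h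
  rw [h]
  congr 1
  · ext r
    simp
  · funext i
    fin_cases i <;> simp

theorem rsR_map (φ : R →+* S) (f : Fin 2 → MvPolynomial (Fin 2) R) (d : ℕ) :
    rsR (mp φ f) d = φ (rsR f d) := by
  unfold rsR mp
  rw [dhR_map, dhR_map, Polynomial.resultant_map_map]

theorem wdR_map (φ : R →+* S) (x y : Fin 2 → R) : wdR (φ ∘ x) (φ ∘ y) = φ (wdR x y) := by
  simp [wdR]

end nat

theorem evR_eq {K : Type} [Field K] (f : Fin 2 → MvPolynomial (Fin 2) K) : evR f = ev f := rfl
theorem rsR_eq {K : Type} [Field K] (f : Fin 2 → MvPolynomial (Fin 2) K) (d : ℕ) :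
    rsR f d = rs f d := rfl
theorem wdR_eq {K : Type} [Field K] (x y : Fin 2 → K) : wdR x y = wd x y := rfl

section germ

variable {𝒰 : Ultrafilter ℕ} {ι : Type} (w : UF 𝒰 ι)

/-- the germ homomorphism -/
def gh (E : Type) [Field E] : (ℕ × ι → E) →+* RR w E := Germ.coeRingHom _

theorem gh_apply (E : Type) [Field E] (g : ℕ × ι → E) : gh w E g = gm w g := rfl

/-- the value at `ω` -/
def at' {ι E : Type} [Field E] (ω : ℕ × ι) : (ℕ × ι → E) →+* E := Pi.evalRingHom (fun _ => E) ω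

theorem gm_ne {E : Type} [Field E] {g : ℕ × ι → E} (h : gm w g ≠ 0) :
    ∀ᶠ ω in (w.W : Filter (ℕ × ι)), g ω ≠ 0 := by
  by_contra hcon
  rw [← Ultrafilter.eventually_not] at hcon
  apply h
  have h0 : (0 : RR w E) = gm w (0 : ℕ × ι → E) := rfl
  rw [h0, gm_eq]
  filter_upwards [hcon] with ω hω
  simpa using hω

theorem ne_gm {E : Type} [Field E] {g : ℕ × ι → E}
    (h : ∀ᶠ ω in (w.W : Filter (ℕ × ι)), g ω ≠ 0) : gm w g ≠ 0 := by
  intro h0
  have h1 : (0 : RR w E) = gm w (0 : ℕ × ι → E) := rfl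
  rw [h1, gm_eq] at h0
  obtain ⟨ω, h2, h3⟩ := (h.and h0).exists
  exact h2 h3

/-- a polynomial with vanishing germ vanishes almost everywhere -/
theorem map_zero_ae {σ E : Type} [Field E] (p : MvPolynomial σ (ℕ × ι → E))
    (h : p.map (gh w E) = 0) : ∀ᶠ ω in (w.W : Filter (ℕ × ι)), p.map (at' ω) = 0 := by
  classical
  have h1 : ∀ μ ∈ p.support, ∀ᶠ ω in (w.W : Filter (ℕ × ι)), p.coeff μ ω = 0 := by
    intro μ _
    have h2 := congrArg (MvPolynomial.coeff μ) h
    rw [MvPolynomial.coeff_map, MvPolynomial.coeff_zero, gh_apply] at h2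
    have h3 : (0 : RR w E) = gm w (0 : ℕ × ι → E) := rfl
    rw [h3, gm_eq] at h2
    exact h2
  have h2 := (Filter.eventually_all_finset p.support).2 h1
  filter_upwards [h2] with ω hω
  ext μ
  rw [MvPolynomial.coeff_map, MvPolynomial.coeff_zero]
  by_cases hμ : μ ∈ p.support
  · exact hω μ hμ
  · rw [MvPolynomial.notMem_support_iff.1 hμ, map_zero]

end germ

/-- the exponents of degree `d` -/
def mons (d : ℕ) : Finset (Fin 2 →₀ ℕ) := Finset.finsuppAntidiag Finset.univ d

theorem mem_mons {d : ℕ} {μ : Fin 2 →₀ ℕ} : μ ∈ mons d ↔ μ.degree = d := by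
  unfold mons
  rw [Finset.mem_finsuppAntidiag]
  simp [Finsupp.degree_eq_sum]

theorem hom_eq_sum {R : Type} [CommRing R] {p : MvPolynomial (Fin 2) R} {d : ℕ}
    (hp : p.IsHomogeneous d) : p = ∑ μ ∈ mons d, monomial μ (p.coeff μ) := by
  classical
  ext ν
  rw [MvPolynomial.coeff_sum]
  simp only [MvPolynomial.coeff_monomial]
  rw [Finset.sum_ite_eq' (mons d) ν]
  split_ifs with h
  · rfl
  · by_contra hne
    have h1 := hp hne
    exact h (mem_mons.2 (by rw [Finsupp.degree_eq_weight_one]; exact h1))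

/-- conjugacy of pairs of forms over `ℚ` -/
def CJ (f g : Fin 2 → MvPolynomial (Fin 2) ℚ) : Prop :=
  ∃ (A : Matrix (Fin 2) (Fin 2) ℚ) (c : ℚ), A.det ≠ 0 ∧ c ≠ 0 ∧
    ∀ v, ev f (A.mulVec v) = c • A.mulVec (ev g v)

theorem CJ.symm' {f g : Fin 2 → MvPolynomial (Fin 2) ℚ} (h : CJ f g) : CJ g f := by
  obtain ⟨A, c, hA, hc, h⟩ := h
  have hu : IsUnit A.det := hA.isUnit
  refine ⟨A⁻¹, c⁻¹, ?_, inv_ne_zero hc, fun v => ?_⟩
  · exact (Matrix.isUnit_nonsing_inv_det A hu).ne_zero
  · have h1 := h (A⁻¹.mulVec v)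
    rw [Matrix.mulVec_mulVec, Matrix.mul_nonsing_inv A hu, Matrix.one_mulVec] at h1
    rw [h1, Matrix.mulVec_smul, smul_smul, inv_mul_cancel₀ hc, one_smul, Matrix.mulVec_mulVec,
      Matrix.nonsing_inv_mul A hu, Matrix.one_mulVec]

theorem CJ.trans' {f g l : Fin 2 → MvPolynomial (Fin 2) ℚ} (h : CJ f g) (h' : CJ g l) :
    CJ f l := by
  obtain ⟨A, c, hA, hc, h⟩ := h
  obtain ⟨B, e, hB, he, h'⟩ := h'
  refine ⟨A * B, c * e, ?_, mul_ne_zero hc he, fun v => ?_⟩
  · rw [Matrix.det_mul]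
    exact mul_ne_zero hA hB
  · rw [← Matrix.mulVec_mulVec, h, h', Matrix.mulVec_smul, smul_smul, Matrix.mulVec_mulVec]

theorem CJ.refl' (f : Fin 2 → MvPolynomial (Fin 2) ℚ) : CJ f f :=
  ⟨1, 1, by simp, one_ne_zero, fun v => by simp⟩

/-- a maximal set of pairwise inequivalent elements of a finite set -/
theorem exists_reps {α : Type} (r : α → α → Prop) (hsymm : ∀ a b, r a b → r b a)
    (hrefl : ∀ a, r a a) (S : Set α) (hS : S.Finite) :
    ∃ T : Finset α, (T : Set α) ⊆ S ∧ (∀ a ∈ T, ∀ b ∈ T, r a b → a = b) ∧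
      ∀ a ∈ S, ∃ b ∈ T, r a b := by
  classical
  let P : Finset α → Prop := fun T => (T : Set α) ⊆ S ∧ ∀ a ∈ T, ∀ b ∈ T, r a b → a = b
  have hfin : {T : Finset α | P T}.Finite := by
    refine (hS.toFinset.powerset.finite_toSet).subset ?_
    intro T hT
    rw [Finset.mem_coe, Finset.mem_powerset]
    intro a ha
    exact hS.mem_toFinset.2 (hT.1 ha)
  have hne : {T : Finset α | P T}.Nonempty := ⟨∅, by simp [P]⟩
  obtain ⟨T, hT, hmax⟩ := hfin.exists_maximalFor Finset.card _ hne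
  refine ⟨T, hT.1, hT.2, fun a ha => ?_⟩
  by_contra hcon
  push Not at hcon
  have haT : a ∉ T := fun h => hcon a h (hrefl a)
  have h1 : P (insert a T) := by
    refine ⟨?_, ?_⟩
    · rw [Finset.coe_insert]
      exact Set.insert_subset ha hT.1
    · intro b hb c hc hbc
      rw [Finset.mem_insert] at hb hc
      rcases hb with rfl | hb <;> rcases hc with rfl | hc
      · rfl
      · exact absurd hbc (hcon c hc)
      · exact absurd (hsymm _ _ hbc) (hcon b hb)
      · exact hT.2 b hb c hc hbc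
  have h2 := hmax h1 (by rw [Finset.card_insert_of_notMem haT]; omega)
  rw [Finset.card_insert_of_notMem haT] at h2
  omega

end Pool.Agent.Q256.FX
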