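import Pool.Agent.Q256.FX.Gen

/-!
# Project FX (helper256): the generic map and its orbit
-/

set_option autoImplicit false

open MvPolynomial Filter Topology

namespace Pool.Agent.Q256.FX

open Pool.Agent.H951R3.PB (wd ev rs dh)

/-- integral pairs of binary forms -/
abbrev Fm : Type := Fin 2 → MvPolynomial (Fin 2) ℤ

/-- the indices of the coordinates: the coefficients and the point -/
abbrev Lam (d : ℕ) : Type := (Fin 2 × {μ // μ ∈ mons d}) ⊕ Fin 2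

/-- the coordinates -/
def zz (d : ℕ) (u : ℕ × Fm → Fin 2 → ℤ) : Lam d → ℕ × Fm → ℚ
  | .inl (i, μ) => fun ω => (((ω.2 i).coeff μ.1 : ℤ) : ℚ)
  | .inr l => fun ω => ((u ω l : ℤ) : ℚ)

/-- the generic map over the ring of functions -/
noncomputable def fhat (d : ℕ) : Fin 2 → MvPolynomial (Fin 2) (ℕ × Fm → ℚ) := fun i =>
  ∑ μ : {μ // μ ∈ mons d}, monomial μ.1 (fun ω => (((ω.2 i).coeff μ.1 : ℤ) : ℚ))

/-- the generic point over the ring of functions -/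
def uhat (u : ℕ × Fm → Fin 2 → ℤ) : Fin 2 → (ℕ × Fm → ℚ) := fun l ω => ((u ω l : ℤ) : ℚ)

theorem at_fhat {d : ℕ} (ω : ℕ × Fm) (h : ∀ i, (ω.2 i).IsHomogeneous d) :
    mp (at' ω) (fhat d) = fq ω.2 := by
  funext i
  have h1 : ((ω.2 i).map (Int.castRingHom ℚ)).IsHomogeneous d := (h i).map _
  unfold mp fhat fq
  rw [hom_eq_sum h1, map_sum]
  rw [← Finset.sum_coe_sort (mons d)]
  refine Finset.sum_congr rfl fun μ _ => ?_
  rw [MvPolynomial.map_monomial, MvPolynomial.coeff_map]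
  rfl

theorem at_uhat (u : ℕ × Fm → Fin 2 → ℤ) (ω : ℕ × Fm) :
    (at' ω : (ℕ × Fm → ℚ) →+* ℚ) ∘ uhat u = fun l => ((u ω l : ℤ) : ℚ) := rfl

theorem fhat_hom (d : ℕ) (i : Fin 2) : (fhat d i).IsHomogeneous d := by
  unfold fhat
  refine MvPolynomial.IsHomogeneous.sum _ _ _ fun μ _ => ?_
  exact MvPolynomial.isHomogeneous_monomial _ (mem_mons.1 μ.2)

/-- the generic orbit -/
noncomputable def orb (d : ℕ) (u : ℕ × Fm → Fin 2 → ℤ) (j : ℕ) : Fin 2 → (ℕ × Fm → ℚ) :=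
  (evR (fhat d))^[j] (uhat u)

theorem at_orb {d : ℕ} (u : ℕ × Fm → Fin 2 → ℤ) (j : ℕ) (ω : ℕ × Fm)
    (h : ∀ i, (ω.2 i).IsHomogeneous d) :
    (fun l => orb d u j l ω) = (ev (fq ω.2))^[j] (fun l => ((u ω l : ℤ) : ℚ)) := by
  have h1 := iter_map (at' ω : (ℕ × Fm → ℚ) →+* ℚ) (fhat d) (uhat u) j
  rw [at_fhat ω h, at_uhat] at h1
  rw [evR_eq] at h1
  rw [h1]
  rfl

section gen

variable {𝒰 : Ultrafilter ℕ} {X : ℕ → ℕ} (w : UF 𝒰 Fm) (d : ℕ) (u : ℕ × Fm → Fin 2 → ℤ)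

/-- the field generated by the generic coordinates -/
noncomputable abbrev KK (X : ℕ → ℕ) : IntermediateField (kf 𝒰 X) (RR w ℚ) :=
  IntermediateField.adjoin (kf 𝒰 X) (Set.range fun l : Lam d => gm w (zz d u l))

theorem mem_KK (l : Lam d) : gm w (zz d u l) ∈ KK w d u X :=
  IntermediateField.subset_adjoin _ _ ⟨l, rfl⟩

/-- the generic map over `KK` -/
noncomputable def fK (X : ℕ → ℕ) : Fin 2 → MvPolynomial (Fin 2) (KK w d u X) := fun i =>
  ∑ μ : {μ // μ ∈ mons d}, monomial μ.1 ⟨gm w (zz d u (.inl (i, μ))), mem_KK w d u _⟩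

/-- the generic point over `KK` -/
noncomputable def uK (X : ℕ → ℕ) : Fin 2 → KK w d u X := fun l =>
  ⟨gm w (zz d u (.inr l)), mem_KK w d u _⟩

theorem fK_hom (i : Fin 2) : (fK w d u X i).IsHomogeneous d := by
  unfold fK
  refine MvPolynomial.IsHomogeneous.sum _ _ _ fun μ _ => ?_
  exact MvPolynomial.isHomogeneous_monomial _ (mem_mons.1 μ.2)

theorem mp_fK : mp (algebraMap (KK w d u X) (RR w ℚ)) (fK w d u X) = mp (gh w ℚ) (fhat d) := by
  funext i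
  unfold mp fK fhat
  rw [map_sum, map_sum]
  refine Finset.sum_congr rfl fun μ _ => ?_
  rw [MvPolynomial.map_monomial, MvPolynomial.map_monomial]
  rfl

theorem comp_uK : (algebraMap (KK w d u X) (RR w ℚ)) ∘ (uK w d u X) = gh w ℚ ∘ uhat u := rfl

/-- the generic orbit over `KK` -/
noncomputable def PK (X : ℕ → ℕ) (j : ℕ) : Fin 2 → KK w d u X := (ev (fK w d u X))^[j] (uK w d u X)

theorem val_PK (j : ℕ) :
    (algebraMap (KK w d u X) (RR w ℚ)) ∘ PK w d u X j = gh w ℚ ∘ orb d u j := by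
  unfold PK orb
  have h1 := iter_map (algebraMap (KK w d u X) (RR w ℚ)) (fK w d u X) (uK w d u X) j
  have h2 := iter_map (gh w ℚ) (fhat d) (uhat u) j
  rw [mp_fK, comp_uK, h2] at h1
  exact h1.symm

theorem val_PK' (j : ℕ) (i : Fin 2) :
    algebraMap (KK w d u X) (RR w ℚ) (PK w d u X j i) = gm w (orb d u j i) :=
  congrFun (val_PK w d u j) i

theorem PK_succ (j : ℕ) : ev (fK w d u X) (PK w d u X j) = PK w d u X (j + 1) := by
  unfold PK
  rw [Function.iterate_succ_apply']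

theorem val_rs : algebraMap (KK w d u X) (RR w ℚ) (rs (fK w d u X) d) =
    gm w (rsR (fhat d) d) := by
  have h1 := rsR_map (algebraMap (KK w d u X) (RR w ℚ)) (fK w d u X) d
  rw [mp_fK, rsR_map] at h1
  rw [← rsR_eq, ← h1]
  rfl

theorem val_wd (i j : ℕ) : algebraMap (KK w d u X) (RR w ℚ) (wd (PK w d u X i) (PK w d u X j)) =
    gm w (wdR (orb d u i) (orb d u j)) := by
  have h1 := wdR_map (algebraMap (KK w d u X) (RR w ℚ)) (PK w d u X i) (PK w d u X j)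
  rw [val_PK, val_PK, wdR_map] at h1
  rw [← wdR_eq, ← h1]
  rfl

theorem at_rs {d : ℕ} (ω : ℕ × Fm) (h : ∀ i, (ω.2 i).IsHomogeneous d) :
    rsR (fhat d) d ω = rs (fq ω.2) d := by
  have h1 := rsR_map (at' ω : (ℕ × Fm → ℚ) →+* ℚ) (fhat d) d
  rw [at_fhat ω h, rsR_eq] at h1
  exact h1.symm

theorem at_wd {d : ℕ} (u : ℕ × Fm → Fin 2 → ℤ) (i j : ℕ) (ω : ℕ × Fm)
    (h : ∀ i, (ω.2 i).IsHomogeneous d) :
    wdR (orb d u i) (orb d u j) ω = wd ((ev (fq ω.2))^[i] (fun l => ((u ω l : ℤ) : ℚ)))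
      ((ev (fq ω.2))^[j] (fun l => ((u ω l : ℤ) : ℚ))) := by
  rw [← at_orb u i ω h, ← at_orb u j ω h]
  rfl

end gen

end Pool.Agent.Q256.FX
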