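import Pool.Agent.Q256.FX.Def

/-!
# Project FX (helper256): definitions and statements of the nonstandard part

`𝒰` is an ultrafilter on the indices `N`, `X N` a sequence of natural numbers, `kf 𝒰 X` the field of
germs of sequences of rational numbers of height at most a power of `X N`. A finite set `T_N` for
every `N` is a subset of `ℕ × ι`; ultrafilters on `ℕ × ι` over `𝒰` are generic points of such sets.
-/

set_option autoImplicit false

open MvPolynomial Filter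

namespace Pool.Agent.Q256.FX

theorem hq_zero : hq 0 = 1 := by simp [hq]
theorem hq_one : hq 1 = 1 := by simp [hq]

theorem hq_neg (a : ℚ) : hq (-a) = hq a := by simp [hq]

theorem one_le_hq (a : ℚ) : 1 ≤ hq a := le_max_of_le_right a.den_pos

theorem hq_divInt_le (p q : ℤ) (hq0 : q ≠ 0) : hq ((p : ℚ) / q) ≤ max p.natAbs q.natAbs := by
  have h1 : (((p : ℚ) / q).num : ℤ) ∣ p := by
    have := Rat.num_dvd p hq0
    rwa [← Rat.divInt_eq_div]
  have h2 : ((((p : ℚ) / q).den : ℕ) : ℤ) ∣ q := by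
    have := Rat.den_dvd p q
    rwa [← Rat.divInt_eq_div]
  have hd : ((p : ℚ) / q).den ≤ q.natAbs :=
    Nat.le_of_dvd (Int.natAbs_pos.2 hq0) (by simpa using Int.natAbs_dvd_natAbs.2 h2)
  rcases eq_or_ne p 0 with rfl | hp
  · simp only [Int.cast_zero, zero_div, hq_zero]
    exact le_max_of_le_right (Int.natAbs_pos.2 hq0)
  · unfold hq
    refine max_le_max ?_ hd
    exact Nat.le_of_dvd (Int.natAbs_pos.2 hp) (Int.natAbs_dvd_natAbs.2 h1)

theorem hq_add_le (a b : ℚ) : hq (a + b) ≤ 2 * (hq a * hq b) := by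
  have e : a + b = ((a.num * b.den + b.num * a.den : ℤ) : ℚ) / ((a.den * b.den : ℤ) : ℚ) := by
    have ha : (a.den : ℚ) ≠ 0 := by exact_mod_cast a.den_nz
    have hb : (b.den : ℚ) ≠ 0 := by exact_mod_cast b.den_nz
    conv_lhs => rw [← Rat.num_div_den a, ← Rat.num_div_den b]
    push_cast
    field_simp
  rw [e]
  refine (hq_divInt_le _ _ ?_).trans ?_
  · have := a.den_nz
    have := b.den_nz
    positivity
  · have h1 : a.num.natAbs ≤ hq a := le_max_left _ _
    have h2 : a.den ≤ hq a := le_max_right _ _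
    have h3 : b.num.natAbs ≤ hq b := le_max_left _ _
    have h4 : b.den ≤ hq b := le_max_right _ _
    refine max_le ?_ ?_
    · refine (Int.natAbs_add_le _ _).trans ?_
      rw [Int.natAbs_mul, Int.natAbs_mul, Int.natAbs_natCast, Int.natAbs_natCast]
      have := Nat.mul_le_mul h1 h4
      have := Nat.mul_le_mul h3 h2
      nlinarith
    · rw [Int.natAbs_mul, Int.natAbs_natCast, Int.natAbs_natCast]
      have := Nat.mul_le_mul h2 h4
      nlinarith

theorem hq_mul_le (a b : ℚ) : hq (a * b) ≤ hq a * hq b := by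
  have e : a * b = ((a.num * b.num : ℤ) : ℚ) / ((a.den * b.den : ℤ) : ℚ) := by
    have ha : (a.den : ℚ) ≠ 0 := by exact_mod_cast a.den_nz
    have hb : (b.den : ℚ) ≠ 0 := by exact_mod_cast b.den_nz
    conv_lhs => rw [← Rat.num_div_den a, ← Rat.num_div_den b]
    push_cast
    field_simp
  rw [e]
  refine (hq_divInt_le _ _ ?_).trans ?_
  · have := a.den_nz
    have := b.den_nz
    positivity
  · have h1 : a.num.natAbs ≤ hq a := le_max_left _ _
    have h2 : a.den ≤ hq a := le_max_right _ _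
    have h3 : b.num.natAbs ≤ hq b := le_max_left _ _
    have h4 : b.den ≤ hq b := le_max_right _ _
    refine max_le ?_ ?_
    · rw [Int.natAbs_mul]
      exact Nat.mul_le_mul h1 h3
    · rw [Int.natAbs_mul, Int.natAbs_natCast, Int.natAbs_natCast]
      exact Nat.mul_le_mul h2 h4

theorem hq_inv_le (a : ℚ) : hq a⁻¹ ≤ hq a := by
  rcases eq_or_ne a 0 with rfl | ha
  · simp
  · have e : a⁻¹ = ((a.den : ℤ) : ℚ) / ((a.num : ℤ) : ℚ) := by
      conv_lhs => rw [← Rat.num_div_den a]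
      rw [inv_div]
      push_cast
      rfl
    rw [e]
    refine (hq_divInt_le _ _ (Rat.num_ne_zero.2 ha)).trans ?_
    rw [Int.natAbs_natCast, max_comm]
    exact le_rfl

/-- The field of germs of sequences of rational numbers of height at most a power of `X N + 2`. -/
def kf (𝒰 : Ultrafilter ℕ) (X : ℕ → ℕ) : Subfield (Germ (𝒰 : Filter ℕ) ℚ) where
  carrier := {g | ∃ c : ℕ → ℚ, g = (c : Germ (𝒰 : Filter ℕ) ℚ) ∧
    ∃ C : ℕ, ∀ᶠ N in (𝒰 : Filter ℕ), hq (c N) ≤ (X N + 2) ^ C}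
  mul_mem' := by
    rintro _ _ ⟨a, rfl, A, hA⟩ ⟨b, rfl, B, hB⟩
    refine ⟨a * b, rfl, A + B, ?_⟩
    filter_upwards [hA, hB] with N h1 h2
    rw [pow_add]
    exact (hq_mul_le _ _).trans (Nat.mul_le_mul h1 h2)
  one_mem' := ⟨1, rfl, 0, Eventually.of_forall fun N => by simp [hq_one]⟩
  add_mem' := by
    rintro _ _ ⟨a, rfl, A, hA⟩ ⟨b, rfl, B, hB⟩
    refine ⟨a + b, rfl, 1 + (A + B), ?_⟩
    filter_upwards [hA, hB] with N h1 h2
    rw [pow_add, pow_add]
    refine (hq_add_le _ _).trans (Nat.mul_le_mul ?_ (Nat.mul_le_mul h1 h2))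
    simp
  zero_mem' := ⟨0, rfl, 0, Eventually.of_forall fun N => by simp [hq_zero]⟩
  neg_mem' := by
    rintro _ ⟨a, rfl, A, hA⟩
    refine ⟨-a, rfl, A, ?_⟩
    filter_upwards [hA] with N h1
    rw [Pi.neg_apply, hq_neg]
    exact h1
  inv_mem' := by
    rintro _ ⟨a, rfl, A, hA⟩
    refine ⟨a⁻¹, rfl, A, ?_⟩
    filter_upwards [hA] with N h1
    exact (hq_inv_le _).trans h1

/-- An ultrafilter on `ℕ × ι` over `𝒰`. -/
structure UF (𝒰 : Ultrafilter ℕ) (ι : Type) where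
  W : Ultrafilter (ℕ × ι)
  map : W.map Prod.fst = 𝒰

/-- Germs of functions of `(N, s)`. -/
abbrev RR {𝒰 : Ultrafilter ℕ} {ι : Type} (w : UF 𝒰 ι) (E : Type) : Type :=
  Germ (w.W : Filter (ℕ × ι)) E

theorem UF.tendsto {𝒰 : Ultrafilter ℕ} {ι : Type} (w : UF 𝒰 ι) :
    Tendsto Prod.fst (w.W : Filter (ℕ × ι)) (𝒰 : Filter ℕ) := by
  have h1 : Filter.map Prod.fst (w.W : Filter (ℕ × ι)) =
      ((w.W.map Prod.fst : Ultrafilter ℕ) : Filter ℕ) := rfl
  exact (h1.trans (congrArg _ w.map)).le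

/-- A germ in `N` as a germ in `(N, s)`. -/
noncomputable def pull {𝒰 : Ultrafilter ℕ} {ι : Type} (w : UF 𝒰 ι) (E : Type) [Field E]
    [CharZero E] : Germ (𝒰 : Filter ℕ) ℚ →+* RR w E where
  toFun g := (g.map (algebraMap ℚ E)).compTendsto Prod.fst w.tendsto
  map_one' := by
    have h1 : ((1 : Germ (𝒰 : Filter ℕ) ℚ)) = ((fun _ => (1 : ℚ)) : ℕ → ℚ) := rfl
    rw [h1, Germ.map_coe, Germ.coe_compTendsto]
    have h2 : ((fun _ : ℕ × ι => (1 : E)) : Germ (w.W : Filter (ℕ × ι)) E) = 1 := rfl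
    rw [← h2]
    congr 1
    funext ω
    simp
  map_mul' := by
    intro a b
    induction a using Germ.inductionOn with | _ a =>
    induction b using Germ.inductionOn with | _ b =>
    rw [← Germ.coe_mul, Germ.map_coe, Germ.map_coe, Germ.map_coe, Germ.coe_compTendsto,
      Germ.coe_compTendsto, Germ.coe_compTendsto, ← Germ.coe_mul]
    congr 1
    funext ω
    simp
  map_zero' := by
    have h1 : ((0 : Germ (𝒰 : Filter ℕ) ℚ)) = ((fun _ => (0 : ℚ)) : ℕ → ℚ) := rfl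
    rw [h1, Germ.map_coe, Germ.coe_compTendsto]
    have h2 : ((fun _ : ℕ × ι => (0 : E)) : Germ (w.W : Filter (ℕ × ι)) E) = 0 := rfl
    rw [← h2]
    congr 1
    funext ω
    simp
  map_add' := by
    intro a b
    induction a using Germ.inductionOn with | _ a =>
    induction b using Germ.inductionOn with | _ b =>
    rw [← Germ.coe_add, Germ.map_coe, Germ.map_coe, Germ.map_coe, Germ.coe_compTendsto,
      Germ.coe_compTendsto, Germ.coe_compTendsto, ← Germ.coe_add]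
    congr 1
    funext ω
    simp

theorem pull_coe {𝒰 : Ultrafilter ℕ} {ι : Type} (w : UF 𝒰 ι) (E : Type) [Field E]
    [CharZero E] (c : ℕ → ℚ) : pull w E (c : Germ (𝒰 : Filter ℕ) ℚ) =
      ((fun ω : ℕ × ι => algebraMap ℚ E (c ω.1)) : ℕ × ι → E) := rfl

/-- The germs in `(N, s)` are an algebra over the field `kf`. -/
noncomputable instance alg {𝒰 : Ultrafilter ℕ} {ι : Type} (w : UF 𝒰 ι) (X : ℕ → ℕ) (E : Type)
    [Field E] [CharZero E] : Algebra (kf 𝒰 X) (RR w E) :=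
  ((pull w E).comp (kf 𝒰 X).subtype).toAlgebra

/-- The germ of a function of `(N, s)`. -/
def gm {𝒰 : Ultrafilter ℕ} {ι : Type} (w : UF 𝒰 ι) {E : Type} (g : ℕ × ι → E) : RR w E :=
  (g : Germ (w.W : Filter (ℕ × ι)) E)

theorem gm_eq {𝒰 : Ultrafilter ℕ} {ι : Type} (w : UF 𝒰 ι) {E : Type} {g h : ℕ × ι → E} :
    gm w g = gm w h ↔ ∀ᶠ ω in (w.W : Filter (ℕ × ι)), g ω = h ω := Germ.coe_eq

/-- The set `B` has at most `(C X N)^(1/a)` elements over `N`. -/
def Small {ι : Type} (𝒰 : Ultrafilter ℕ) (X : ℕ → ℕ) (a : ℕ) (B : Set (ℕ × ι)) : Prop :=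
  ∃ C : ℕ, ∀ᶠ N in (𝒰 : Filter ℕ), {s | (N, s) ∈ B}.Finite ∧
    {s | (N, s) ∈ B}.ncard ^ a ≤ C * X N

/-- Job LG: generic points of sets which are not small. -/
def S_lg : Prop := ∀ (ι : Type) (𝒰 : Ultrafilter ℕ) (X : ℕ → ℕ) (T : Set (ℕ × ι)) (a : ℕ),
  1 ≤ a → ¬ Small 𝒰 X a T → ∃ w : UF 𝒰 ι, T ∈ w.W ∧ ∀ B, Small 𝒰 X a B → B ∉ w.W

end Pool.Agent.Q256.FX
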