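import Pool.Agent.Q256.FX.Gnr
import Pool.Agent.TH450.PC.F4

/-!
# Project FX (helper256): exceptional maps, their points, heights of the orbit
-/

set_option autoImplicit false

open MvPolynomial Filter Topology

namespace Pool.Agent.Q256.FX

open Pool.Agent.H951R3.PB (wd ev rs dh)

/-- the integral pairs of forms of degree `d` with coefficients at most `X` and nonzero resultant -/
def MapsN (d X : ℕ) : Set Fm :=
  {F | (∀ i, (F i).IsHomogeneous d) ∧ (∀ i μ, ((F i).coeff μ).natAbs ≤ X) ∧ rs (fq F) d ≠ 0}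

/-- There is a point whose first `N + 1` iterates are distinct, of canonical height at most
`log X / N`. -/
def Exc (d N X : ℕ) (F : Fm) : Prop :=
  ∃ v : Fin 2 → ℚ, v ≠ 0 ∧
    (∀ i j, i < j → j ≤ N → wd ((ev (fq F))^[i] v) ((ev (fq F))^[j] v) ≠ 0) ∧
    ∃ h : ℝ, h ≤ Real.log X / N ∧
      Tendsto (fun j : ℕ => Real.log (Height.mulHeight ((ev (fq F))^[j] v)) / (d : ℝ) ^ j) atTop
        (𝓝 h)

/-- the same with a primitive integral vector -/
def PtOK (d N X : ℕ) (F : Fm) (u : Fin 2 → ℤ) : Prop :=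
  (fun l => (u l : ℚ)) ≠ 0 ∧
  Height.mulHeight (fun l => (u l : ℚ)) = ((max (u 0).natAbs (u 1).natAbs : ℕ) : ℝ) ∧
    (∀ i j, i < j → j ≤ N → wd ((ev (fq F))^[i] (fun l => (u l : ℚ)))
      ((ev (fq F))^[j] (fun l => (u l : ℚ))) ≠ 0) ∧
    ∃ h : ℝ, h ≤ Real.log X / N ∧
      Tendsto (fun j : ℕ => Real.log (Height.mulHeight ((ev (fq F))^[j] (fun l => (u l : ℚ)))) /
        (d : ℝ) ^ j) atTop (𝓝 h)

theorem iter_smul {K : Type} [Field K] {d : ℕ} {f : Fin 2 → MvPolynomial (Fin 2) K}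
    (hf : ∀ i, (f i).IsHomogeneous d) (c : K) (hc : c ≠ 0) (x : Fin 2 → K) (j : ℕ) :
    ∃ e : K, e ≠ 0 ∧ (ev f)^[j] (c • x) = e • (ev f)^[j] x := by
  induction j with
  | zero => exact ⟨c, hc, rfl⟩
  | succ j ih =>
    obtain ⟨e, he, h⟩ := ih
    refine ⟨e ^ d, pow_ne_zero _ he, ?_⟩
    rw [Function.iterate_succ_apply', Function.iterate_succ_apply', h,
      Pool.Agent.TH450.PC.ev_smul hf]

theorem exists_pt (hprim : S_prim) {d N X : ℕ} {F : Fm} (hF : F ∈ MapsN d X) (h : Exc d N X F) :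
    ∃ u : Fin 2 → ℤ, PtOK d N X F u := by
  obtain ⟨v, hv, hwd, t, ht, hlim⟩ := h
  obtain ⟨u, c, hc, hcv, -, hht, -⟩ := hprim v hv
  have hfq : ∀ i, (fq F i).IsHomogeneous d := fun i => (hF.1 i).map _
  set v' : Fin 2 → ℚ := fun l => (u l : ℚ) with hv'
  have hit := fun j => iter_smul hfq c hc v' j
  choose e he heq using hit
  rw [← hcv] at heq
  refine ⟨u, ?_, ?_, ?_, t, ht, ?_⟩
  · intro h0
    apply hv
    have h0' : v' = 0 := h0
    rw [hcv, h0', smul_zero]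
  · rw [← hht, hcv]
    exact (Height.mulHeight_smul_eq_mulHeight _ hc).symm
  · intro i j hij hj h0
    apply hwd i j hij hj
    rw [heq, heq]
    have h1 : wd (e i • (ev (fq F))^[i] v') (e j • (ev (fq F))^[j] v') =
        e i * e j * wd ((ev (fq F))^[i] v') ((ev (fq F))^[j] v') := by
      simp only [wd, Pi.smul_apply, smul_eq_mul]
      ring
    rw [h1, h0, mul_zero]
  · refine hlim.congr fun j => ?_
    rw [heq, Height.mulHeight_smul_eq_mulHeight _ (he j)]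

theorem orb_height (hht : S_ht) (d : ℕ) (hd : 2 ≤ d) : ∃ A : ℕ, ∀ X : ℕ, 2 ≤ X → ∀ F ∈ MapsN d X,
    ∀ (N : ℕ) (u : Fin 2 → ℤ), 1 ≤ N → PtOK d N X F u → ∀ j, d ^ j ≤ N →
      (ev (fq F))^[j] (fun l => (u l : ℚ)) ≠ 0 ∧
      Height.mulHeight ((ev (fq F))^[j] (fun l => (u l : ℚ))) ≤ (X : ℝ) ^ (A + 1) := by
  obtain ⟨A, hA⟩ := hht d hd
  refine ⟨A, ?_⟩
  intro X hX F hF N u hN hu j hj
  obtain ⟨h0, -, hwd, h, hh, hlim⟩ := hu
  have hd0 : (0 : ℝ) < d := by exact_mod_cast (by omega : 0 < d)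
  have hjN : j ≤ N := (Nat.lt_pow_self (by omega : 1 < d)).le.trans hj
  have hne : (ev (fq F))^[j] (fun l => (u l : ℚ)) ≠ 0 := by
    rcases Nat.eq_zero_or_pos j with rfl | hj0
    · exact h0
    · intro h1
      apply hwd 0 j hj0 hjN
      rw [h1]
      simp [wd]
  refine ⟨hne, ?_⟩
  have hlim' : Tendsto (fun i : ℕ => Real.log (Height.mulHeight ((ev (fq F))^[i]
      ((ev (fq F))^[j] (fun l => (u l : ℚ))))) / (d : ℝ) ^ i) atTop (𝓝 ((d : ℝ) ^ j * h)) := by
    have h1 := (hlim.comp (tendsto_add_atTop_nat j)).const_mul ((d : ℝ) ^ j)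
    refine h1.congr fun i => ?_
    simp only [Function.comp]
    rw [Function.iterate_add_apply, pow_add]
    field_simp
  have h2 := hA X hX F hF.1 hF.2.1 hF.2.2 _ hne _ hlim'
  have hX0 : (0 : ℝ) < X := by exact_mod_cast (by omega : 0 < X)
  have hlog : 0 ≤ Real.log X := Real.log_nonneg (by exact_mod_cast (by omega : 1 ≤ X))
  have hN0 : (0 : ℝ) < N := by exact_mod_cast (by omega : 0 < N)
  have h3 : (d : ℝ) ^ j * h ≤ Real.log X := by
    have h4 : (d : ℝ) ^ j ≤ N := by exact_mod_cast hj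
    calc (d : ℝ) ^ j * h ≤ (d : ℝ) ^ j * (Real.log X / N) := by gcongr
      _ ≤ N * (Real.log X / N) := by gcongr
      _ = Real.log X := by field_simp
  have hpos : 0 < Height.mulHeight ((ev (fq F))^[j] (fun l => (u l : ℚ))) :=
    Height.mulHeight_pos _
  rw [← Real.log_le_log_iff hpos (by positivity), Real.log_pow]
  push_cast
  linarith

theorem finite_MapsN (d X : ℕ) : (MapsN d X).Finite := by
  classical
  let φ : Fm → (Fin 2 × {μ // μ ∈ mons d} → ℤ) := fun F p => (F p.1).coeff p.2.1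
  have hinj : Set.InjOn φ (MapsN d X) := by
    intro F hF G hG h
    funext i
    rw [hom_eq_sum (hF.1 i), hom_eq_sum (hG.1 i)]
    refine Finset.sum_congr rfl fun μ hμ => ?_
    have h1 := congrFun h (i, ⟨μ, hμ⟩)
    simp only [φ] at h1
    rw [h1]
  refine Set.Finite.of_finite_image ?_ hinj
  refine (Set.Finite.subset (Set.finite_Icc (fun _ => -(X : ℤ) : Fin 2 × {μ // μ ∈ mons d} → ℤ)
    (fun _ => (X : ℤ))) ?_)
  rintro _ ⟨F, hF, rfl⟩
  rw [Set.mem_Icc]
  refine ⟨fun p => ?_, fun p => ?_⟩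
  · have h1 := hF.2.1 p.1 p.2.1
    simp only [φ]
    omega
  · have h1 := hF.2.1 p.1 p.2.1
    simp only [φ]
    omega

end Pool.Agent.Q256.FX
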